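import Pool.Agent.Q104.CH.Vof
import Pool.Agent.Q104.CH.Cut
import Pool.Agent.Q68.CH.Gen
import Pool.Agent.Q68.CH.GenB
import Pool.Agent.Q68.CH.Ms
import Pool.Agent.Q68.CH.Tor
import Pool.Agent.Q68.CH.AbsS
import Pool.Agent.Q68.CH.Rule
import Pool.Agent.Q187.CHC.Deg
import Pool.Agent.Q187.CHC.Xch
import Pool.Agent.Q187.CHC.Block
import Pool.Agent.Q187.CHC.CutV
import Pool.Agent.Q187.CHC.AbsE
import Pool.Agent.Q187.CHC.DivC
import Pool.Agent.Q239.CH.DIVN
import Pool.Agent.Q239.CH.ALG
import Pool.Agent.Q239.CH.STEP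
import Pool.Agent.Q239.CH.TOWER
import Pool.Agent.Q222.CH.BoxB
import Pool.Agent.Q222.CH.Strip0
import Pool.Agent.Q222.CH.StripB
import Pool.Agent.Q222.CH.Quad
import Pool.Agent.Q222.CH.WinC
import Pool.Agent.Q200.CH.Multi
import Pool.Agent.Q299.CH.LeafA
import Pool.Agent.Q299.CH.NumA
import Pool.Agent.Q299.CH.Two
import Pool.Agent.Q153.CH.CorA
import Pool.Agent.Q153.CH.Cor2A
import Pool.Agent.Q251.CH.ExpA

/-! # Project CH: the assembly of the lemmas.

The lemmas of `Stm`, `Stm2`, `Stm3` were proved by helper68, helper104, helper153, helper187, helper200,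
helper222, helper239, helper251 and helper299. -/

set_option autoImplicit false

namespace Pool.Agent.H200C

open Pool.Agent

theorem p_vof : VOF := Q104.CH.vof
theorem p_gen : Gen := Q68.CH.gen p_vof
theorem p_genB : GenB := (Q68.CH.genB p_gen).1
theorem p_genC : GenC := (Q68.CH.genB p_gen).2.1
theorem p_exi : Exi := (Q68.CH.genB p_gen).2.2
theorem p_deg : Deg := (Q187.CHC.deg p_vof).1
theorem p_degE : DegE := (Q187.CHC.deg p_vof).2
theorem p_xch : Xch := Q187.CHC.xch p_vof
theorem p_ms : Ms := Q68.CH.msP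
theorem p_tor : Tor := Q68.CH.tor p_vof p_genC p_exi
theorem p_block : Block := Q187.CHC.block p_vof p_genB p_exi p_degE p_ms
theorem p_cutV : CutV := Q187.CHC.cutV p_vof p_genB p_exi p_degE p_ms
theorem p_absE : AbsE := Q187.CHC.absE p_vof p_genB p_exi p_ms
theorem p_absS : AbsS := Q68.CH.absS p_vof p_genB p_exi p_xch p_ms
theorem p_divC : DivC := Q187.CHC.divC
theorem p_cutCE : CutCE := Q104.CH.cutCE p_vof p_genB p_genC p_exi p_degE p_ms p_divC
theorem p_cutCS : CutCS := Q104.CH.cutCS p_vof p_genB p_genC p_exi p_deg p_xch p_ms p_divC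
theorem p_rule : Rule := Q68.CH.rule p_absE p_absS p_cutCE p_cutCS p_ms
theorem p_divNS : DivNS := Q239.CH.divN.1
theorem p_divNE : DivNE := Q239.CH.divN.2
theorem p_boxB : BoxB := Q222.CH.boxB p_block p_tor
theorem p_strip0 : Strip0 := Q222.CH.strip0 p_tor
theorem p_stripB : StripB := Q222.CH.stripB p_divNS p_divNE p_boxB p_strip0 p_cutV
theorem p_alg : Alg := Q239.CH.alg
theorem p_stepS : StepS := (Q239.CH.step p_divNS p_divNE p_stripB p_alg).1
theorem p_stepE : StepE := (Q239.CH.step p_divNS p_divNE p_stripB p_alg).2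
theorem p_towerS : TowerS := (Q239.CH.tower p_stepS p_stepE p_alg).1
theorem p_towerE : TowerE := (Q239.CH.tower p_stepS p_stepE p_alg).2
theorem p_quad : Quad := Q222.CH.quad
theorem p_multi : Multi := Q200.CH.multi p_towerS p_towerE p_alg p_rule p_tor p_ms
theorem p_winC : WinC := Q222.CH.winC p_multi p_quad p_tor p_alg p_ms
theorem p_corankA : CorankA := Q153.CH.corA (Q299.CH.numA Q299.CH.leafA)
theorem p_expA : ExpA := Q251.CH.expA p_winC p_corankA (Q153.CH.cor2A p_corankA)
theorem p_two : Two := Q299.CH.two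

end Pool.Agent.H200C
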