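import Pool.Agent.H200C.Fin
import Pool.Agent.H200C.Asm

/-! # Project CH: the results. -/

set_option autoImplicit false

namespace Pool.Agent.H200C

open Finset Pool.Agent.H200W Pool.Agent.H200P Pool.Agent.W609.CR Pool.Agent

theorem expA_all : ExpA := p_expA
theorem two_all : Two := p_two

theorem chainAt_all {n d : ℕ} {w : Fin n → ℕ} (h : ChainAt d w) : GenExp d w := expA_all h

theorem chained_all {n d : ℕ} {w : Fin n → ℕ} (h : Chained d w) : GenExp d w :=
  chained_exp expA_all h

end Pool.Agent.H200C
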