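import Pool.Agent.H200C.Stm3
import Pool.Agent.H200W.NefFin

/-! # Project CH: nef classes. -/

set_option autoImplicit false

namespace Pool.Agent.H200C

open Finset Pool.Agent.W609.CR Pool.Agent.H200W

/-- The real class `c H - ∑ x_i E_i` is in chained form (with two levels): there are a point `p` and a
set `A` of other points with ARBITRARY coefficients, and numbers `e ≥ 1`, `h ≥ 0`, such that the other
coefficients are at most `m` and take at most `s` values, with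
* `x p + e h + 2 ^ 30 e m ≤ c`, and `x p + e h + (x i - h) + 2 ^ 30 e m ≤ c` for `i ∈ A`;
* `e h + ∑_A max (x i - h) 0 + 2 ^ 33 m (e + g h) ≤ c`;
* `∑_A x i + 2 ^ 33 m e ^ 2 (1 + g 0) ≤ e c`;
* the squares of the other coefficients have the sum at least `2 ^ 29 s m ^ 2`;
where `g t` is the number of the `i ∈ A` with `t < x i ≤ t + 2 ^ 28 m`. -/
def ChainR {n : ℕ} (c : ℝ) (x : Fin n → ℝ) : Prop :=
  ∃ (p : Fin n) (A : Finset (Fin n)) (e s : ℕ) (m h : ℝ), 0 < m ∧ 0 ≤ h ∧ 1 ≤ e ∧ 1 ≤ s ∧ p ∉ A ∧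
    (∀ i, 0 ≤ x i) ∧ (∀ i, i ≠ p → i ∉ A → x i ≤ m) ∧
    ((univ \ insert p A).image x).card ≤ s ∧
    x p + e * h + 2 ^ 30 * e * m ≤ c ∧
    (∀ i ∈ A, x p + e * h + (x i - h) + 2 ^ 30 * e * m ≤ c) ∧
    e * h + ∑ i ∈ A, max (x i - h) 0 +
      2 ^ 33 * m * (e + (A.filter fun i => h < x i ∧ x i ≤ h + 2 ^ 28 * m).card) ≤ c ∧
    ∑ i ∈ A, x i + 2 ^ 33 * m * (e : ℝ) ^ 2 *
      (1 + (A.filter fun i => 0 < x i ∧ x i ≤ 2 ^ 28 * m).card) ≤ e * c ∧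
    2 ^ 29 * s * m ^ 2 ≤ ∑ i ∈ univ \ insert p A, x i ^ 2

theorem ChainR.nonneg {n : ℕ} {c : ℝ} {x : Fin n → ℝ} (h : ChainR c x) : ∀ i, 0 ≤ x i := by
  obtain ⟨p, A, e, s, m, h, h1, h2, h3, h4, h5, h6, _⟩ := h
  exact h6

theorem ChainR.c_nonneg {n : ℕ} {c : ℝ} {x : Fin n → ℝ} (h : ChainR c x) : 0 ≤ c := by
  obtain ⟨p, A, e, s, m, h, h1, h2, h3, h4, h5, h6, h7, h8, h9, _⟩ := h
  have h10 := h6 p
  have h11 : (0 : ℝ) ≤ e * h := by positivity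
  have h12 : (0 : ℝ) ≤ 2 ^ 30 * e * m := by positivity
  linarith

theorem ChainR.mono {n : ℕ} {c c' : ℝ} {x : Fin n → ℝ} (h : ChainR c x) (hc : c ≤ c') :
    ChainR c' x := by
  obtain ⟨p, A, e, s, m, h, h1, h2, h3, h4, h5, h6, h7, h8, h9, h10, h11, h12, h13⟩ := h
  refine ⟨p, A, e, s, m, h, h1, h2, h3, h4, h5, h6, h7, h8, h9.trans hc,
    fun i hi => (h10 i hi).trans hc, h11.trans hc, h12.trans ?_, h13⟩
  exact mul_le_mul_of_nonneg_left hc (Nat.cast_nonneg _)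

theorem chainR_nef (hN : NefA) {n : ℕ} {P : Fin n → Fin 2 → ℂ}
    (hP : AlgebraicIndependent ℚ (fun ij : Fin n × Fin 2 => P ij.1 ij.2)) {c : ℝ}
    {x : Fin n → ℝ} (h : ChainR c x) (hc : ∑ i, x i ^ 2 ≤ c ^ 2) :
    ∀ (G : MvPolynomial (Fin 3) ℂ) (e : ℕ) (u : Fin n → ℕ), G ≠ 0 → G.IsHomogeneous e →
      (∀ i, Van (Pool.Agent.W609.CR.aff (P i)) (u i) G) → ∑ i, x i * (u i : ℝ) ≤ c * e := by
  obtain ⟨p, A, e, s, m, h, h1, h2, h3, h4, h5, h6, h7, h8, h9, h10, h11, h12, h13⟩ := h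
  exact hN hP c m h x p A e h1 h2 h3 h4 h5 h6 h7 h8 h9 h10 h11 h12 h13 hc

end Pool.Agent.H200C
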