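import Pool.Agent.H200C.All
import Pool.Agent.H200C.Nef
import Pool.Agent.H200W.NefFin
import Pool.Agent.Q92.CH.NefA

/-! # Project CH: nef classes. -/

set_option autoImplicit false

namespace Pool.Agent.H200C

open Finset Pool.Agent.H200W Pool.Agent.H200P Pool.Agent.W609.CR Pool.Agent

theorem nefA_all : NefA := Q92.CH.nefA expA_all two_all nefExp

theorem chain_nef {n : ℕ} {P : Fin n → Fin 2 → ℂ}
    (hP : AlgebraicIndependent ℚ (fun ij : Fin n × Fin 2 => P ij.1 ij.2)) {c : ℝ}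
    {x : Fin n → ℝ} (h : ChainR c x) (hc : ∑ i, x i ^ 2 ≤ c ^ 2) :
    ∀ (G : MvPolynomial (Fin 3) ℂ) (e : ℕ) (u : Fin n → ℕ), G ≠ 0 → G.IsHomogeneous e →
      (∀ i, Van (Pool.Agent.W609.CR.aff (P i)) (u i) G) → ∑ i, x i * (u i : ℝ) ≤ c * e :=
  chainR_nef nefA_all hP h hc

end Pool.Agent.H200C
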