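import Pool.Agent.H200P.All

/-! # Project CH (chains of curves). Definitions.

Points of arbitrary multiplicities on a rational curve `z = p(x)` of degree `e`, which is then taken out
of the linear system several times, followed by a curve of smaller degree, and so on.

Polynomials in two variables are elements `f` of `R[X][X]`; the inner variable is `x`, the outer one is
`z` (or `y`): the coefficient of `x ^ a * z ^ b` is `(f.coeff b).coeff a`. -/

set_option autoImplicit false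

namespace Pool.Agent.H200C

open Finset Polynomial Pool.Agent.TH176.Nag Pool.Agent.TH603.Sur Pool.Agent.TH2.NU Pool.Agent.TH641.UM
open Pool.Agent.Y205.FW Pool.Agent.Y205.MD Pool.Agent.H200W Pool.Agent.H200P

/-- the Taylor coefficient of `(x - x0) ^ i * (z - z0) ^ k` of `f` at `(x0, z0)` -/
noncomputable def tc {R : Type} [CommRing R] (f : R[X][X]) (x y : R) (i k : ℕ) : R :=
  (taylor x ((taylor (C y) f).coeff k)).coeff i

/-- multiplicity at least `m` at the point `(x, y)` -/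
def VO {R : Type} [CommRing R] (m : ℕ) (x y : R) (f : R[X][X]) : Prop :=
  ∀ i k : ℕ, i + k < m → tc f x y i k = 0

/-- the exponents of `f` are in `S` -/
def In {R : Type} [CommRing R] (S : Set (ℕ × ℕ)) (f : R[X][X]) : Prop :=
  ∀ a b : ℕ, (f.coeff b).coeff a ≠ 0 → (a, b) ∈ S

/-- there is no nonzero polynomial with exponents in `S` and the multiplicities `m i` at the points
`(x i, y i)` -/
def Inj (R : Type) [CommRing R] {ι : Type} (m : ι → ℕ) (x y : ι → R) (S : Set (ℕ × ℕ)) : Prop :=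
  ∀ f : R[X][X], In S f → (∀ i, VO (m i) (x i) (y i) f) → f = 0

/-- emptiness with the multiplicities `w` at points of the line `z = 0` and `v` at further points -/
def EmB {ι κ : Type} (w : ι → ℕ) (v : κ → ℕ) (S : Set (ℕ × ℕ)) : Prop :=
  ∃ (K : Type) (_ : Field K) (_ : CharZero K) (ξ : ι → K) (x y : κ → K),
    Inj K (Sum.elim w v) (Sum.elim ξ x) (Sum.elim (fun _ => 0) y) S

/-- emptiness with the multiplicities `w` at points of a curve `z = p(x)`, `deg p ≤ e`, and `v` at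
further points -/
def EmC (e : ℕ) {ι κ : Type} (w : ι → ℕ) (v : κ → ℕ) (S : Set (ℕ × ℕ)) : Prop :=
  ∃ (K : Type) (_ : Field K) (_ : CharZero K) (p : K[X]) (ξ : ι → K) (x y : κ → K),
    p.natDegree ≤ e ∧
      Inj K (Sum.elim w v) (Sum.elim ξ x) (Sum.elim (fun i => p.eval (ξ i)) y) S

/-- the entries of a multiset as a family -/
noncomputable def fam (W : Multiset ℕ) : Fin W.toList.length → ℕ := fun i => W.toList.get i

/-- emptiness, points on the line `z = 0` -/
def EB (W M : Multiset ℕ) (S : Set (ℕ × ℕ)) : Prop := EmB (fam W) (fam M) S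

/-- independence, points on the line `z = 0` -/
def SB (W M : Multiset ℕ) (S : Set (ℕ × ℕ)) : Prop :=
  ∃ T : Finset (ℕ × ℕ), (↑T : Set (ℕ × ℕ)) ⊆ S ∧ T.card = TH2.NU.condM W + TH2.NU.condM M ∧ EB W M ↑T

/-- independence of the conditions which are visible in the first `H` rows -/
def SBH (H : ℕ) (W M : Multiset ℕ) (S : Set (ℕ × ℕ)) : Prop :=
  ∃ T : Finset (ℕ × ℕ), (↑T : Set (ℕ × ℕ)) ⊆ S ∧
    T.card + TH2.NU.condM (W.map fun w => w - H) = TH2.NU.condM W + TH2.NU.condM M ∧ EB W M ↑T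

/-- emptiness, points on a curve of degree `e` -/
def EC (e : ℕ) (W M : Multiset ℕ) (S : Set (ℕ × ℕ)) : Prop := EmC e (fam W) (fam M) S

/-- independence, points on a curve of degree `e` -/
def SC (e : ℕ) (W M : Multiset ℕ) (S : Set (ℕ × ℕ)) : Prop :=
  ∃ T : Finset (ℕ × ℕ), (↑T : Set (ℕ × ℕ)) ⊆ S ∧ T.card = TH2.NU.condM W + TH2.NU.condM M ∧ EC e W M ↑T

/-- the polynomial with the coefficients `α` -/
noncomputable def cv {R : Type} [CommRing R] (e : ℕ) (α : Fin (e + 1) → R) : R[X] :=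
  ∑ t : Fin (e + 1), C (α t) * X ^ (t : ℕ)

/-- the natural points of a set of exponents -/
def qd (S : Set (ℤ × ℤ)) : Set (ℕ × ℕ) := {p | ((p.1 : ℤ), (p.2 : ℤ)) ∈ S}

/-- the strip `0 ≤ k < H`, `0 ≤ a ≤ b - σ k` -/
def St (b σ : ℤ) (H : ℕ) : Set (ℕ × ℕ) := {p | p.2 < H ∧ (p.1 : ℤ) + σ * p.2 ≤ b}

/-- the box with `c` columns and `H` rows -/
def BX (c H : ℕ) : Set (ℕ × ℕ) := {p | p.1 < c ∧ p.2 < H}

/-- the triangle of the exponents of degree at most `d` -/
def Tr (d : ℕ) : Set (ℕ × ℕ) := {p | p.1 + p.2 ≤ d}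

/-- what is left of the multiplicities after `k` steps -/
def up (W : Multiset ℕ) (k : ℕ) : Multiset ℕ := (W.filter fun w => k < w).map fun w => w - k

/-- the elements less than `H` -/
def lo (W : Multiset ℕ) (H : ℕ) : Multiset ℕ := W.filter fun w => w < H

/-- the elements at least `H` -/
def hi (W : Multiset ℕ) (H : ℕ) : Multiset ℕ := W.filter fun w => H ≤ w

/-- the sum of the squares -/
noncomputable def sq (W : Multiset ℕ) : ℝ := (W.map fun w : ℕ => (w : ℝ) ^ 2).sum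

/-- the intersection number with the curve after `k` steps -/
def lm (B ρ : ℤ) (W : Multiset ℕ) (k : ℕ) : ℤ := B - ρ * k - ((up W k).sum : ℕ)

/-- all lists of units (each of need at most `u`) of total need at most `α` have the property `Q`
(independence) -/
def GS (h u : ℝ) (Q : Multiset ℕ → Prop) (α : ℝ) : Prop :=
  Q 0 ∧ ∀ L : List (Multiset ℕ × ℝ), (∀ x ∈ L, UnitS h x.1 x.2 ∧ 0 ≤ x.2 ∧ x.2 ≤ u) →
    (L.map Prod.snd).sum ≤ α → Q (L.map Prod.fst).sum

/-- all lists of units (each of need at most `u`) of total need at least `α` have the property `Q`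
(emptiness) -/
def GE (h u : ℝ) (Q : Multiset ℕ → Prop) (α : ℝ) : Prop :=
  ∀ L : List (Multiset ℕ × ℝ), (∀ x ∈ L, UnitE h x.1 x.2 ∧ 0 ≤ x.2 ∧ x.2 ≤ u) →
    α ≤ (L.map Prod.snd).sum → Q (L.map Prod.fst).sum

/-- The multiplicities `K` are good in all degrees `D ≥ D1`. -/
def BaseK (h δ : ℝ) (K : Multiset ℕ) (D1 : ℕ) : Prop := ∀ D : ℕ, D1 ≤ D → 0 ≤ (D : ℝ) ^ 2 - sq K ∧
  GS h (1024 * h ^ 2) (fun X => SurM (K + X) (↑(HX 0 0 0 D) : Set (ℤ × ℤ)))
    ((1 - δ) * ((D : ℝ) ^ 2 - sq K)) ∧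
  GE h (1024 * h ^ 2) (fun X => EmpM (K + X) (↑(HX 0 0 0 D) : Set (ℤ × ℤ)))
    ((1 + δ) * ((D : ℝ) ^ 2 - sq K))

/-- The numerical condition for a chain of curves of degrees `E 0 ≥ E 1 ≥ ...` through the points with
multiplicities `W`, which are all at most `m`; the degree which is left is at least `D1`. The main
condition is asked for only at `k = 0` and where the degree of the curves changes. -/
def Chain (H0 d D1 : ℕ) (W : Multiset ℕ) (E : ℕ → ℕ) (m : ℕ) : Prop :=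
  Antitone E ∧ (∀ k, 1 ≤ E k) ∧ (∀ w ∈ W, w ≤ m) ∧
    D1 + ∑ j ∈ range m, E j + 2 ^ 8 * E 0 * H0 ≤ d ∧
    ∀ k < m, (k = 0 ∨ E k < E (k - 1)) →
      (up W k).sum + E k * ∑ j ∈ range k, E j +
        2 ^ 13 * H0 * E k * (E 0 + E k * (W.filter fun w => k < w ∧ w ≤ k + 256 * H0).card) ≤ E k * d

/-- The two windows for the multiplicities `K` in all degrees `f ≥ d`. -/
def WinAb (h : ℝ) (K : Multiset ℕ) (d : ℕ) : Prop := ∀ f : ℕ, d ≤ f → ∃ Λ : ℝ, 0 ≤ Λ ∧
  Λ + 2 * (f + 2) ≤ (2 * ((HX 0 0 0 f).card : ℝ) - 2 * (TH2.NU.condM K : ℝ)) / (64 * h) ∧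
  GoodSK K h (1024 * h ^ 2) (↑(HX 0 0 0 f) : Set (ℤ × ℤ))
    (2 * ((HX 0 0 0 f).card : ℝ) - 2 * (TH2.NU.condM K : ℝ) - Λ) ∧
  GoodEK K h (1024 * h ^ 2) (↑(HX 0 0 0 f) : Set (ℤ × ℤ))
    (2 * ((HX 0 0 0 f).card : ℝ) - 2 * (TH2.NU.condM K : ℝ) + Λ)

end Pool.Agent.H200C
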