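import Pool.Agent.H200C.Stm3
import Pool.Agent.H200P.Fin

/-! # Project CH: general points, special cases. -/

set_option autoImplicit false

namespace Pool.Agent.H200C

open Finset Pool.Agent.H200W Pool.Agent.H200P Pool.Agent.H932R3

/-- The class `(d; w)` is chained, or above a chained class `(e; v)` without sections, `e ≥ d`. -/
def Chained {n : ℕ} (d : ℕ) (w : Fin n → ℕ) : Prop :=
  ChainAt d w ∨ ∃ (e : ℕ) (v : Fin n → ℕ), d ≤ e ∧ (∀ i, v i ≤ w i) ∧ ChainAt e v ∧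
    (e + 2).choose 2 ≤ ∑ i, (v i + 1).choose 2

theorem chained_exp (hE : ExpA) {n d : ℕ} {w : Fin n → ℕ} (h : Chained d w) : GenExp d w := by
  rcases h with h | ⟨e, v, h1, h2, h3, h4⟩
  · exact hE h
  · intro K _ _ P hP
    exact exp_low2 h1 h2 (hE h3 hP) h4

/-- Points of `A` on a curve of degree `e`: one arbitrary multiplicity `w p`, the multiplicities `w i ≤ M`,
`i ∈ A`, are arbitrary with `∑_A w i + ... ≤ e d`, `w p + e M + ... ≤ d`. -/
theorem chainAt_e (hT : Two) {n d e M μ s : ℕ} {w : Fin n → ℕ} {p : Fin n} {A : Finset (Fin n)}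
    (hp : p ∉ A) (he : 1 ≤ e) (hμ : 1 ≤ μ) (hM : ∀ i ∈ A, w i ≤ M)
    (h1 : ∀ i, i ≠ p → i ∉ A → w i ≤ μ) (h2 : ((univ \ insert p A).image w).card ≤ s)
    (h3 : w p + e * M + 2 ^ 31 * (μ + 1) * e ≤ d)
    (h4 : ∑ i ∈ A, w i + 2 ^ 31 * (μ + 1) * e ^ 2 *
      (1 + (A.filter fun i => 0 < w i ∧ w i ≤ 2 ^ 26 * (μ + 1)).card) ≤ e * d)
    (h5 : 2 ^ 28 * s * μ ^ 2 ≤ ∑ i ∈ univ \ insert p A, w i ^ 2 ∨
      ∑ i ∈ insert p A, w i * (w i + 1) + 2 ^ 30 * (s + 1) * μ ^ 2 ≤ (d + 1) * (d + 2)) :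
    ChainAt d w := by
  have h6 : 2 ^ 27 * (μ + 1) * e ≤ 2 ^ 31 * (μ + 1) * e :=
    Nat.mul_le_mul_right _ (Nat.mul_le_mul_right _ (by norm_num))
  have h7 : ∑ i ∈ A, (w i - M) = 0 :=
    Finset.sum_eq_zero fun i hi => Nat.sub_eq_zero_of_le (hM i hi)
  have h8 : (A.filter fun i => M < w i ∧ w i ≤ M + 2 ^ 26 * (μ + 1)) = ∅ := by
    rw [Finset.filter_eq_empty_iff]
    intro i hi h
    have := hM i hi
    omega
  refine hT (h := M) hp he hμ h1 h2 ?_ ?_ ?_ h4 h5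
  · omega
  · intro i hi
    rw [Nat.sub_eq_zero_of_le (hM i hi)]
    omega
  · rw [h7, h8, Finset.card_empty]
    simp only [add_zero]
    clear h4 h5 h8
    omega

/-- Standard classes with margin whose large part has nonnegative intersection with the anticanonical
class, with margin. -/
theorem chainAt_ac (hT : Two) {n d a μ s : ℕ} {w : Fin n → ℕ} (hw : Antitone w) (hn : 3 ≤ n)
    (ha : a < n) (hμ : 1 ≤ μ) (hs : 1 ≤ s) (h1 : ∀ i : Fin n, a ≤ i.1 → w i ≤ μ)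
    (h2 : ((univ.filter fun i : Fin n => a ≤ i.1).image w).card ≤ s)
    (h3 : ∀ i j k : Fin n, i ≠ j → i ≠ k → j ≠ k → w i + w j + w k + 2 ^ 34 * (μ + 1) ≤ d)
    (h4 : ∑ i ∈ univ.filter (fun i : Fin n => i.1 < a), w i + 2 ^ 35 * (μ + 1) *
      (1 + (univ.filter fun i : Fin n => i.1 < a ∧ w i ≤ 2 ^ 26 * (μ + 1)).card) ≤ 3 * d)
    (h5 : 2 ^ 29 * s * μ ^ 2 ≤ ∑ i ∈ univ.filter (fun i : Fin n => a ≤ i.1), w i ^ 2 ∨
      ∑ i ∈ univ.filter (fun i : Fin n => i.1 < a), w i * (w i + 1) + 2 ^ 31 * (s + 1) * μ ^ 2 ≤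
        (d + 1) * (d + 2)) :
    ChainAt d w := by
  classical
  obtain ⟨A, hA⟩ : ∃ A : Finset (Fin n), A = univ.filter fun i : Fin n => i.1 < a := ⟨_, rfl⟩
  obtain ⟨p, hp⟩ : ∃ p : Fin n, p = ⟨a, ha⟩ := ⟨_, rfl⟩
  obtain ⟨T, hTr⟩ : ∃ T : Finset (Fin n), T = {⟨0, by omega⟩, ⟨1, by omega⟩, ⟨2, by omega⟩} :=
    ⟨_, rfl⟩
  obtain ⟨h, hh⟩ : ∃ h : ℕ, h = if h' : 3 < a then w ⟨3, by omega⟩ else 0 := ⟨_, rfl⟩
  have hpA : p ∉ A := by
    rw [hA, hp, mem_filter]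
    simp
  have hh1 : ∀ i : Fin n, i.1 ≤ 3 → h ≤ w i := by
    intro i hi
    rw [hh]
    split_ifs with h'
    · exact hw (Fin.le_def.2 hi)
    · exact Nat.zero_le _
  have hh2 : ∀ i ∈ A, 3 ≤ i.1 → w i ≤ h := by
    intro i hi hi3
    rw [hA, mem_filter] at hi
    rw [hh, dif_pos (by omega)]
    exact hw (Fin.le_def.2 hi3)
  have hT3 : ∀ i : Fin n, i ∉ T → 3 ≤ i.1 := by
    intro i hi
    by_contra h'
    apply hi
    rw [hTr]
    simp only [mem_insert, mem_singleton, Fin.ext_iff]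
    omega
  have hTc : T.card ≤ 3 := by
    rw [hTr]
    exact card_le_three
  have hTs : ∑ i ∈ T, (w i - h) = (w ⟨0, by omega⟩ - h) + (w ⟨1, by omega⟩ - h) +
      (w ⟨2, by omega⟩ - h) := by
    rw [hTr, sum_insert (by simp [Fin.ext_iff]), sum_insert (by simp [Fin.ext_iff]),
      sum_singleton, add_assoc]
  have a0 := hh1 ⟨0, by omega⟩ (by simp)
  have a1 := hh1 ⟨1, by omega⟩ (by simp)
  have a2 := hh1 ⟨2, by omega⟩ (by simp)
  have h012 := h3 ⟨0, by omega⟩ ⟨1, by omega⟩ ⟨2, by omega⟩ (by simp [Fin.ext_iff])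
    (by simp [Fin.ext_iff]) (by simp [Fin.ext_iff])
  have hsumA : ∑ i ∈ A, (w i - h) ≤ ∑ i ∈ T, (w i - h) := by
    calc ∑ i ∈ A, (w i - h) = ∑ i ∈ A ∩ T, (w i - h) := by
          symm
          apply sum_subset inter_subset_left
          intro i hi hi'
          exact Nat.sub_eq_zero_of_le (hh2 i hi (hT3 i fun h' => hi' (mem_inter.2 ⟨hi, h'⟩)))
      _ ≤ ∑ i ∈ T, (w i - h) :=
          sum_le_sum_of_subset_of_nonneg inter_subset_right fun _ _ _ => Nat.zero_le _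
  have hcard : (A.filter fun i => h < w i ∧ w i ≤ h + 2 ^ 26 * (μ + 1)).card ≤ 3 := by
    refine le_trans (card_le_card ?_) hTc
    intro i hi
    rw [mem_filter] at hi
    by_contra h'
    have := hh2 i hi.1 (hT3 i h')
    omega
  have hwp : w p ≤ μ := h1 p (by rw [hp])
  clear hh
  obtain ⟨x0, hx0⟩ : ∃ x0 : ℕ, x0 = w ⟨0, by omega⟩ := ⟨_, rfl⟩
  obtain ⟨x1, hx1⟩ : ∃ x1 : ℕ, x1 = w ⟨1, by omega⟩ := ⟨_, rfl⟩
  obtain ⟨x2, hx2⟩ : ∃ x2 : ℕ, x2 = w ⟨2, by omega⟩ := ⟨_, rfl⟩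
  obtain ⟨U, hU⟩ : ∃ U : ℕ, U = μ + 1 := ⟨_, rfl⟩
  rw [← hx0, ← hx1, ← hx2] at hTs h012
  rw [← hx0] at a0
  rw [← hx1] at a1
  rw [← hx2] at a2
  rw [← hU] at h012 hcard h4
  simp only [← hU] at h3
  have hle0 : ∀ i : Fin n, w i ≤ x0 := fun i => hx0 ▸ hw (Fin.le_def.2 (Nat.zero_le _))
  have hrest : (univ \ insert p A) ⊆ univ.filter fun i : Fin n => a ≤ i.1 := by
    intro i hi
    rw [mem_sdiff, mem_insert, hA, mem_filter] at hi
    rw [mem_filter]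
    refine ⟨mem_univ _, ?_⟩
    by_contra h'
    exact hi.2 (Or.inr ⟨mem_univ _, by omega⟩)
  have hins : insert p (univ \ insert p A) = univ.filter fun i : Fin n => a ≤ i.1 := by
    ext i
    rw [mem_insert, mem_sdiff, mem_insert, mem_filter, hA, mem_filter, hp]
    simp only [mem_univ, true_and, Fin.ext_iff]
    omega
  refine hT (e := 3) (h := h) (μ := μ) (s := s) (p := p) (A := A) hpA (by norm_num) hμ ?_ ?_ ?_ ?_
    ?_ ?_ ?_
  · intro i _ hi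
    refine h1 i ?_
    rw [hA, mem_filter] at hi
    by_contra h'
    exact hi ⟨mem_univ _, by omega⟩
  · exact (card_le_card (image_subset_image hrest)).trans h2
  · rw [← hU]
    clear h4 h5 hcard
    omega
  · intro i _
    rw [← hU]
    have := hle0 i
    clear h4 h5 hcard
    omega
  · rw [← hU]
    have h6 : 2 ^ 31 * U *
        (3 + (A.filter fun i => h < w i ∧ w i ≤ h + 2 ^ 26 * U).card) ≤
        2 ^ 31 * U * 6 := Nat.mul_le_mul_left _ (by omega)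
    clear h4 h5
    omega
  · rw [← hU]
    obtain ⟨g, hg⟩ : ∃ g : ℕ, g =
      (univ.filter fun i : Fin n => i.1 < a ∧ w i ≤ 2 ^ 26 * U).card := ⟨_, rfl⟩
    have h6 : (A.filter fun i => 0 < w i ∧ w i ≤ 2 ^ 26 * U).card ≤ g := by
      rw [hg]
      refine card_le_card fun i hi => ?_
      rw [mem_filter, hA, mem_filter] at hi
      rw [mem_filter]
      exact ⟨mem_univ _, hi.1.2, hi.2.2⟩
    rw [← hg] at h4
    rw [hA] at h6 ⊢
    have h7 : 2 ^ 31 * U * 3 ^ 2 *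
        (1 + ((univ.filter fun i : Fin n => i.1 < a).filter
          fun i => 0 < w i ∧ w i ≤ 2 ^ 26 * U).card) ≤
        2 ^ 35 * U * (1 + g) := by
      apply Nat.mul_le_mul _ (by omega)
      clear h4 h5 h6 h012 hcard h3
      omega
    clear h5
    omega
  · have hr1 : ∑ i ∈ univ.filter (fun i : Fin n => a ≤ i.1), w i ^ 2 =
        w p ^ 2 + ∑ i ∈ univ \ insert p A, w i ^ 2 := by
      rw [← hins, sum_insert (by simp)]
    have hr2 : ∑ i ∈ insert p A, w i * (w i + 1) = w p * (w p + 1) + ∑ i ∈ A, w i * (w i + 1) :=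
      sum_insert hpA
    have b1 : w p ^ 2 ≤ μ ^ 2 := Nat.pow_le_pow_left hwp 2
    have b2 : w p * (w p + 1) ≤ 2 * μ ^ 2 := by nlinarith
    have b3 : μ ^ 2 ≤ s * μ ^ 2 := Nat.le_mul_of_pos_left _ hs
    rcases h5 with h5 | h5
    · left
      rw [hr1] at h5
      have b4 : 2 ^ 29 * s * μ ^ 2 = 2 ^ 29 * (s * μ ^ 2) := by ring
      have b5 : 2 ^ 28 * s * μ ^ 2 = 2 ^ 28 * (s * μ ^ 2) := by ring
      rw [b4] at h5
      rw [b5]
      omega
    · right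
      rw [hr2, hA]
      have b4 : 2 ^ 31 * (s + 1) * μ ^ 2 = 2 ^ 31 * (s * μ ^ 2) + 2 ^ 31 * μ ^ 2 := by ring
      have b5 : 2 ^ 30 * (s + 1) * μ ^ 2 = 2 ^ 30 * (s * μ ^ 2) + 2 ^ 30 * μ ^ 2 := by ring
      rw [b4] at h5
      rw [b5]
      omega

end Pool.Agent.H200C
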