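import Pool.Agent.H200C.Def

/-! # Project CH: statements of the lemmas, with their proofs. Part 1: geometry.

Every lemma is stated as `S_Name : Prop` (its hypotheses are the conclusions of other lemmas); the
conclusions have names without `S_`. Everything of the projects WR and PK is available
(`Pool.Agent.H200W.p_...`, `Pool.Agent.H200P...`). -/

set_option autoImplicit false

namespace Pool.Agent.H200C

open Finset Polynomial Pool.Agent.TH176.Nag Pool.Agent.TH603.Sur Pool.Agent.TH2.NU Pool.Agent.TH641.UM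
open Pool.Agent.Y205.FW Pool.Agent.Y205.MD Pool.Agent.H200W Pool.Agent.H200P

/-! ## A. Taylor coefficients, generic points, degenerations -/

/-- CH1. Elementary properties of Taylor coefficients and multiplicities. Proofs. `expl`: by linearity for
`f = C (C c * X ^ a) * X ^ b` (`taylor` of a power: binomial theorem). `map`, `add`, `smul`: `taylor` commutes
with ring homomorphisms of the coefficients and is linear. `rows`, `rows0`:
`Polynomial.X_sub_C_pow_dvd_iff` (`(X - C t) ^ n ∣ p ↔ X ^ n ∣ p.comp (X + C t)`), `X_pow_dvd_iff`;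
`taylor 0` is the identity. `shift`: `taylor (C y) (taylor p f) = taylor (p + C y) f`, and
`p + C y = C (y + p.eval x) + q` with `(X - C x) ∣ q`; the coefficient `k` of `taylor q g` is
`∑ j ≥ k, (j.choose k) * q ^ (j - k) * g.coeff j`, so if `(X - C x) ^ (m - j) ∣ g.coeff j` for all `j < m` the
same holds for `taylor q g` (and back with `-q`). `mul`: the rows of the product of `taylor (C y) h` and
`taylor (C y) f`. `mulC`: `(X - C x) ^ n` and `g` are relatively prime in the sense that
`(X - C x) ^ n ∣ g * r` implies `(X - C x) ^ n ∣ r` if `g.eval x ≠ 0` (`X - C x` is prime). `mulX0`: `rows0`,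
the coefficient `k + H` of `X ^ H * f` is that of `f` at `k`. `mulX`: `taylor (C y) (X ^ H * f) =
(X + C (C y)) ^ H * taylor (C y) f`; induction on the row `k`: modulo the rows `< k` the row `k` of the product
is `C y ^ H` times the row `k` of `taylor (C y) f`. `substY`: `taylor (C u) (f.comp (C Q * X)) =
f.comp (C Q * (X + C (C u)))`; with `Q = C (Q.eval x) + q`, `(X - C x) ∣ q`, this is
`taylor (C (u * Q.eval x)) f` composed with `C Q * X + C (C u * q)`: the row `j`, a multiple of
`(X - C x) ^ (m - j)`, is multiplied by `(C Q * X + C (C u * q)) ^ j`, whose row `k` is a multiple of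
`q ^ (j - k)`. `substX`: `expl`, or: the Taylor coefficient `(i, k)` at `(x, y)` of the new polynomial is
`t ^ i` times that of `f` at `(t x, y)`. `corner`: `taylor 0` is the identity. -/
structure VOF : Prop where
  expl : ∀ {R : Type} [CommRing R] (f : R[X][X]) (x y : R) (i k : ℕ),
    tc f x y i k = f.sum fun b g => g.sum fun a c =>
      c * ((a.choose i : ℕ) : R) * ((b.choose k : ℕ) : R) * x ^ (a - i) * y ^ (b - k)
  map : ∀ {R R' : Type} [CommRing R] [CommRing R'] (φ : R →+* R') (f : R[X][X]) (x y : R)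
    (i k : ℕ), tc (f.map (mapRingHom φ)) (φ x) (φ y) i k = φ (tc f x y i k)
  add : ∀ {R : Type} [CommRing R] (f g : R[X][X]) (x y : R) (i k : ℕ),
    tc (f + g) x y i k = tc f x y i k + tc g x y i k
  smul : ∀ {R : Type} [CommRing R] (c : R) (f : R[X][X]) (x y : R) (i k : ℕ),
    tc (C (C c) * f) x y i k = c * tc f x y i k
  rows : ∀ {R : Type} [CommRing R] (m : ℕ) (x y : R) (f : R[X][X]),
    VO m x y f ↔ ∀ k < m, (X - C x) ^ (m - k) ∣ (taylor (C y) f).coeff k
  rows0 : ∀ {R : Type} [CommRing R] (m : ℕ) (x : R) (f : R[X][X]),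
    VO m x 0 f ↔ ∀ k < m, (X - C x) ^ (m - k) ∣ f.coeff k
  shift : ∀ {R : Type} [CommRing R] (m : ℕ) (x y : R) (p : R[X]) (f : R[X][X]),
    VO m x (y + p.eval x) f ↔ VO m x y (taylor p f)
  mul : ∀ {R : Type} [CommRing R] {m : ℕ} {x y : R} (h : R[X][X]) {f : R[X][X]},
    VO m x y f → VO m x y (h * f)
  mulC : ∀ {R : Type} [CommRing R] [IsDomain R] {m : ℕ} {x y : R} (g : R[X]) {f : R[X][X]},
    g.eval x ≠ 0 → VO m x y (C g * f) → VO m x y f
  mulX0 : ∀ {R : Type} [CommRing R] {m : ℕ} {x : R} (H : ℕ) {f : R[X][X]},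
    VO m x 0 (X ^ H * f) → VO (m - H) x 0 f
  mulX : ∀ {R : Type} [CommRing R] [IsDomain R] {m : ℕ} {x y : R} (H : ℕ) {f : R[X][X]},
    y ≠ 0 → VO m x y (X ^ H * f) → VO m x y f
  substY : ∀ {R : Type} [CommRing R] {m : ℕ} {x u : R} (Q : R[X]) {f : R[X][X]},
    VO m x (u * Q.eval x) f → VO m x u (f.comp (C Q * X))
  substX : ∀ {R : Type} [CommRing R] {m : ℕ} {x y : R} (t : R) {f : R[X][X]},
    VO m (t * x) y f → VO m x y (f.map (compRingHom (C t * X)))
  corner : ∀ {R : Type} [CommRing R] (m : ℕ) (f : R[X][X]),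
    VO m 0 0 f ↔ ∀ a b : ℕ, a + b < m → (f.coeff b).coeff a = 0

/-- CH2. From one configuration to generic ones. Here the points depend polynomially on parameters.
Proof: as `Pool.Agent.TH603.Sur.Emp_open` (TH603/Sur/Forms.lean, the first theorem): by `VOF.expl` the
conditions `VO (m i)` on the polynomials with exponents in the finite set `S` are linear equations in the
coefficients whose coefficients are polynomials in the parameters
(`(a.choose i) (b.choose k) px ^ (a - i) py ^ (b - k)`). The matrix has trivial kernel at the given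
parameters, so (`Pool.Agent.TH15.Nag.exists_rows`) some maximal minor does not vanish there; it is a nonzero
polynomial over `ℚ` in the parameters, and does not vanish at algebraically independent ones. -/
def Gen : Prop := ∀ {σ ι : Type} [Finite σ] [Finite ι] (m : ι → ℕ)
  (px py : ι → MvPolynomial σ ℚ) (S : Set (ℕ × ℕ)), S.Finite →
  (∃ (K : Type) (_ : Field K) (_ : CharZero K) (s : σ → K),
    Inj K m (fun i => MvPolynomial.aeval s (px i)) (fun i => MvPolynomial.aeval s (py i)) S) →
  ∀ {L : Type} [Field L] [CharZero L] (s : σ → L), AlgebraicIndependent ℚ s →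
    Inj L m (fun i => MvPolynomial.aeval s (px i)) (fun i => MvPolynomial.aeval s (py i)) S

def S_Gen : Prop := VOF → Gen

/-- CH3. Generic points for `EmB`: the parameters are the coordinates. -/
def GenB : Prop := ∀ {ι κ : Type} [Finite ι] [Finite κ] {w : ι → ℕ} {v : κ → ℕ}
  {S : Set (ℕ × ℕ)}, S.Finite → EmB w v S →
  ∀ {L : Type} [Field L] [CharZero L] (s : ι ⊕ κ × Fin 2 → L), AlgebraicIndependent ℚ s →
    Inj L (Sum.elim w v) (Sum.elim (fun i => s (Sum.inl i)) fun j => s (Sum.inr (j, 0)))
      (Sum.elim (fun _ => 0) fun j => s (Sum.inr (j, 1))) S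

/-- generic points for `EmC`: the parameters are the coefficients of the curve, the `x`-coordinates of
the points on it, and the coordinates of the other points -/
def GenC : Prop := ∀ {e : ℕ} {ι κ : Type} [Finite ι] [Finite κ] {w : ι → ℕ} {v : κ → ℕ}
  {S : Set (ℕ × ℕ)}, S.Finite → EmC e w v S →
  ∀ {L : Type} [Field L] [CharZero L] (s : Fin (e + 1) ⊕ ι ⊕ κ × Fin 2 → L),
    AlgebraicIndependent ℚ s →
    Inj L (Sum.elim w v)
      (Sum.elim (fun i => s (Sum.inr (Sum.inl i))) fun j => s (Sum.inr (Sum.inr (j, 0))))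
      (Sum.elim (fun i => (cv e fun t => s (Sum.inl t)).eval (s (Sum.inr (Sum.inl i))))
        fun j => s (Sum.inr (Sum.inr (j, 1)))) S

/-- there are algebraically independent families -/
def Exi : Prop := ∀ (σ : Type) [Finite σ], ∃ (K : Type) (_ : Field K) (_ : CharZero K)
  (s : σ → K), AlgebraicIndependent ℚ s

/-- CH3. Proof: `GenB` is CH2 with `px`, `py` equal to variables or `0`; `GenC` is CH2 with
`py = ∑ t, X (inl t) * X (inr (inl i)) ^ t` for the points on the curve (a polynomial `p` with
`p.natDegree ≤ e` is `cv e fun t => p.coeff t`, `Polynomial.as_sum_range'`); `Exi`: the fraction field of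
`MvPolynomial σ ℚ` and the variables. -/
def S_GenB : Prop := Gen → GenB ∧ GenC ∧ Exi

/-- CH4. Degenerations, for families. `g j` are polynomials over `K[t]` (`t = X`). If every solution with
coefficients in `K[t]` is divisible by `t`, there is no nonzero solution over the fraction field. Proof:
multiply `c` by a common denominator; then all `c j` are in `K[t]` (the `VO` conditions pass to `K[t]` by
`VOF.map`, as `K[t] → K(t)` is injective); if `c j = X * c' j` for all `j` then `c'` is again a solution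
(`VOF.smul`, `K[t]` is a domain); so all `c j` are divisible by `X ^ n` for every `n`, and `c = 0`. -/
def Deg : Prop := ∀ {K : Type} [Field K] {ι J : Type} [Fintype J] (m : ι → ℕ) (x y : ι → K[X])
  (g : J → K[X][X][X]),
  (∀ c : J → K[X], (∀ i, VO (m i) (x i) (y i) (∑ j, C (C (c j)) * g j)) → ∀ j, (c j).coeff 0 = 0) →
  ∀ c : J → FractionRing K[X], (∀ i, VO (m i) (algebraMap K[X] (FractionRing K[X]) (x i))
      (algebraMap K[X] (FractionRing K[X]) (y i)) (∑ j, C (C (c j)) *
        (g j).map (mapRingHom (algebraMap K[X] (FractionRing K[X]))))) → c = 0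

/-- degenerations, for a finite set of exponents -/
def DegE : Prop := ∀ {K : Type} [Field K] {ι : Type} (m : ι → ℕ) (x y : ι → K[X])
  (S : Set (ℕ × ℕ)), S.Finite →
  (∀ f : K[X][X][X], In S f → (∀ i, VO (m i) (x i) (y i) f) →
    f.map (mapRingHom (evalRingHom (0 : K))) = 0) →
  Inj (FractionRing K[X]) m (fun i => algebraMap K[X] (FractionRing K[X]) (x i))
    (fun i => algebraMap K[X] (FractionRing K[X]) (y i)) S

/-- CH4. `DegE` is `Deg` for the family of the monomials `C (X ^ a) * X ^ b`, `(a, b) ∈ S`. -/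
def S_Deg : Prop := VOF → Deg ∧ DegE

/-- CH5. Exchange. Proof: the linear map from the polynomials with exponents in `S` to the values of the
Taylor coefficients `tc · (x i) (y i) a k`, `a + k < m i`, has rank at least `n` (it is injective on the
span of the `g j`, which are linearly independent). Its image is spanned by the images of the monomials, so
there are `n` monomials whose images are linearly independent. -/
def Xch : Prop := ∀ {K : Type} [Field K] {ι : Type} [Finite ι] (m : ι → ℕ) (x y : ι → K)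
  (S : Set (ℕ × ℕ)) {n : ℕ} (g : Fin n → K[X][X]), (∀ j, In S (g j)) →
  (∀ c : Fin n → K, (∀ i, VO (m i) (x i) (y i) (∑ j, C (C (c j)) * g j)) → c = 0) →
  ∃ T : Finset (ℕ × ℕ), (↑T : Set (ℕ × ℕ)) ⊆ S ∧ T.card = n ∧ Inj K m x y ↑T

def S_Xch : Prop := VOF → Xch

/-- CH6. The families may be replaced by others with the same multiset of nonzero multiplicities. -/
def Ms : Prop := ∀ {ι κ ι' κ' : Type} [Fintype ι] [Fintype κ] [Fintype ι'] [Fintype κ']
  {w : ι → ℕ} {v : κ → ℕ} {w' : ι' → ℕ} {v' : κ' → ℕ} {S : Set (ℕ × ℕ)},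
  (ms w).filter (fun a => 0 < a) = (ms w').filter (fun a => 0 < a) →
  (ms v).filter (fun a => 0 < a) = (ms v').filter (fun a => 0 < a) →
  (EmB w v S → EmB w' v' S) ∧ ∀ e : ℕ, EmC e w v S → EmC e w' v' S

/-- CH6. Proof: there is a bijection between the indices of nonzero multiplicity which respects the
multiplicities; the points with multiplicity `0` carry no condition (give them arbitrary coordinates). See
`Emp_of_ms` (TH641/UM/MS.lean), `ms_toList`, `exists_fam`; `ms (fam W) = W`. -/
def S_Ms : Prop := Ms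

/-- CH7. The relation with Laurent polynomials and points of the torus. -/
def Tor : Prop :=
  (∀ (M : Multiset ℕ) (S : Set (ℤ × ℤ)), EmpM M S → EB 0 M (qd S) ∧ ∀ e, EC e 0 M (qd S)) ∧
  (∀ (M : Multiset ℕ) (S : Set (ℤ × ℤ)), (∀ m ∈ S, 0 ≤ m.1 ∧ 0 ≤ m.2) → SurM M S →
    SB 0 M (qd S) ∧ ∀ e, SC e 0 M (qd S)) ∧
  (∀ (e : ℕ) (W M : Multiset ℕ) (S : Set (ℤ × ℤ)), S.Finite → (∀ m ∈ S, 0 ≤ m.1 ∧ 0 ≤ m.2) →
    EC e W M (qd S) → EmpM (W + M) S) ∧
  (∀ (e : ℕ) (W M : Multiset ℕ) (S : Set (ℤ × ℤ)), (∀ m ∈ S, 0 ≤ m.1 ∧ 0 ≤ m.2) →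
    SC e W M (qd S) → SurM (W + M) S)

/-- CH7. Proof. For `x, y ≠ 0` in a field of characteristic zero, and `f : K[X][X]` with the corresponding
Laurent polynomial `f'` (coefficient of `(a, b)` equal to `(f.coeff b).coeff a`), `VO m x y f ↔ LM f' x y m`:
by `VOF.expl` the Taylor coefficient `(i, k)` is `x⁻¹ ^ i * y⁻¹ ^ k` times `pr f' x y P` with
`P (a, b) = (a.choose i) * (b.choose k)`, a polynomial of degree `i + k` (up to the factors `i!`, `k!` a product
of falling factorials; see `PF_desc`, `PF_le_of_desc` in TH176/Nag/Base.lean for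
the spans). The first two parts are then immediate (no points on the curve: `p = 0`, `fam 0` is a family over
`Fin 0`; in the second one transport the finite set `T`). Third part: `GenC` and `Exi`: over a field `L` with
algebraically independent parameters all points, also those on the curve, have nonzero coordinates, so
they are in the torus, and `Emp (Sum.elim (fam W) (fam M)) S`; `EmpM_iff`, `ms_sum`. Fourth part: the third one
for the set `T`. -/
def S_Tor : Prop := VOF → GenC → Exi → Tor

/-! ## B. Strips -/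

/-- CH8. A point on the line tends to the corner. -/
def Block : Prop :=
  (∀ (v : ℕ) (W M : Multiset ℕ) (S : Set (ℕ × ℕ)), S.Finite →
    EB W M {p | p ∈ S ∧ v ≤ p.1 + p.2} → EB ({v} + W) M S) ∧
  (∀ (v : ℕ) (W M : Multiset ℕ) (S : Set (ℕ × ℕ)), (∀ p : ℕ × ℕ, p.1 + p.2 < v → p ∈ S) →
    SB W M {p | p ∈ S ∧ v ≤ p.1 + p.2} → SB ({v} + W) M S)

/-- CH8. Proof. First part: take a field with algebraically independent parameters (`Exi`, `GenB`; the
positions `ξ, x, y` of the points of `W`, `M`), and over `K[t]` the same positions for these points, and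
`(t, 0)` for the point of multiplicity `v`. `DegE`: let `f` over `K[t]` have exponents in `S` and all the
multiplicities, `f0` its value at `t = 0` (`VOF.map` with `evalRingHom 0`). By `VOF.corner` the exponents of
`f0` are in `{v ≤ a + b}`, so `f0 = 0` by `GenB`. This gives `EmB (Sum.elim (fun _ : Unit => v) (fam W))
(fam M) S`; `Ms`. Second part: if `T'` is the set of `SB W M`, apply the first part to
`T = T' ∪ {a + b < v}`, a disjoint union; the corner has `(v + 1).choose 2` elements. -/
def S_Block : Prop := VOF → GenB → Exi → DegE → Ms → Block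

/-- CH9. Cutting by a vertical line. -/
def CutV : Prop :=
  (∀ (c : ℕ) (W1 W2 M1 M2 : Multiset ℕ) (S S1 S2 : Set (ℕ × ℕ)), S.Finite →
    (∀ p ∈ S, p.1 < c → p ∈ S1) → (∀ p ∈ S, c ≤ p.1 → (p.1 - c, p.2) ∈ S2) →
    EB W1 M1 S1 → EB W2 M2 S2 → EB (W1 + W2) (M1 + M2) S) ∧
  (∀ (c : ℕ) (W1 W2 M1 M2 : Multiset ℕ) (S S1 S2 : Set (ℕ × ℕ)),
    (∀ p ∈ S1, p ∈ S ∧ p.1 < c) → (∀ p ∈ S2, (p.1 + c, p.2) ∈ S) →
    SB W1 M1 S1 → SB W2 M2 S2 → SB (W1 + W2) (M1 + M2) S)

/-- CH9. Proof. First part. We may replace `S1`, `S2` by finite subsets. Take a field `K` with algebraically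
independent parameters for all points (positions `ξ1, x1, y1, ξ2, x2, y2`). Over `K[t]` take the positions
`(t ξ1, 0)`, `(t x1, y1)`, `(ξ2, 0)`, `(x2, y2)`. `DegE`: let `f = ∑ c a b x ^ a y ^ b` over `K[t]` satisfy all
conditions and suppose that `f0 = f` at `t = 0` is not `0`. It has the multiplicities `W2`, `M2`. If all its
exponents have `a ≥ c` then `f0 = C (X ^ c) * f'`, `f'` has exponents in `S2` and the same multiplicities
(`VOF.mulC`, the coordinates are not `0`), so `f' = 0` by `GenB`. Hence there is `(a, b)` with `a < c` such that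
`c a b` has a nonzero constant term. Let `g = f.map (compRingHom (C t * X))`
(coefficients `t ^ a c a b`), which has the multiplicities `W1`, `M1` at `(ξ1, 0)`, `(x1, y1)`
(`VOF.substX`), and let `t ^ n` be the largest power of `t` which divides all coefficients of `g`; `n ≤ a < c`.
Then `g = t ^ n g'`, `g'` has the same multiplicities (`VOF.smul`), its value `g'0` at `t = 0` is not `0` and
has only exponents with first coordinate `≤ n < c` (the coefficient of `g'` at `(a', b')` is divisible by
`t ^ (a' - n)`), so it has exponents in `S1`, contradiction to `GenB`. `Ms` for the multisets. Second part: if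
`T1`, `T2` are the sets of `SB`, apply the first part to `T1` and `T2` shifted by `(c, 0)`, a disjoint union. -/
def S_CutV : Prop := VOF → GenB → Exi → DegE → Ms → CutV

/-- CH10. Points of large multiplicity on the line, emptiness. -/
def AbsE : Prop := ∀ (A V M : Multiset ℕ) (b σ : ℤ) (H : ℕ), (∀ a ∈ A, H ≤ a) →
  EB V M (St (b - (A.sum : ℕ)) (σ - (A.card : ℕ)) H) → EB (A + V) M (St b σ H)

/-- CH10. Proof. Take a field with algebraically independent parameters `ξ` (for `A`), `η` (for `V`), `x, u`
(for `M`). Let `Q = ∏ (X - C (ξ i))`, `P k = ∏ (X - C (ξ i)) ^ (a i - k)` for `k < H`, so `P k * Q ^ k = P 0`,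
`P k` of degree `A.sum - A.card * k`. Take the positions `(ξ, 0)`, `(η, 0)`, `(x, u * Q.eval x)`. Let `f` have
exponents in `St b σ H` and all the multiplicities. By `VOF.rows0` the row `f k` is divisible by all
`(X - C (ξ i)) ^ (a i - k)`, hence by `P k` (the `ξ i` are distinct); `f k = P k * g k`, and
`g = ∑ k < H, C (g k) * X ^ k` has exponents in the smaller strip. `g` has the multiplicities `V`
at `(η, 0)` (`VOF.rows0`, `P k` does not vanish at `η`) and `M` at `(x, u)`:
`C (P 0) * g = f.comp (C Q * X)` (row `k`: `P 0 * g k = Q ^ k * f k`), `VOF.substY`, `VOF.mulC`. So `g = 0` by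
`GenB`. (The strips are finite.) -/
def S_AbsE : Prop := VOF → GenB → Exi → Ms → AbsE

/-- CH11. Points of large multiplicity on the line, independence. -/
def AbsS : Prop := ∀ (A V M : Multiset ℕ) (b σ : ℤ) (H : ℕ), (∀ a ∈ A, H ≤ a) → (∀ v ∈ V, v ≤ H) →
  (∀ k < H, (A.map fun a : ℕ => (a : ℤ) - k).sum ≤ b - σ * k + 1) →
  SB V M (St (b - (A.sum : ℕ)) (σ - (A.card : ℕ)) H) → SBH H (A + V) M (St b σ H)

/-- CH11. Proof. With the notation of CH10 and the set `T'` of the hypothesis consider the polynomials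
`C (P k * X ^ a) * X ^ k`, `(a, k) ∈ T'`, and `C (X ^ j) * X ^ k`, `k < H`, `j < deg P k`. They have exponents
in `St b σ H`: `deg P k = ∑ (a i - k) = A.sum - A.card * k`. A linear combination with all the multiplicities
is `0`: its row `k` is `P k * g k + r k` with `deg r k < deg P k`, and divisible by `P k`, so `r k = 0`;
`g = 0` as in CH10 by `EB V M T'`. So all coefficients are `0`, and `Xch` gives a set `T` of exponents of
the same number, `T.card = T'.card + ∑ k < H, ∑ i, (a i - k)`, with `EmB` on `T`. Finally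
`∑ k < H, (a - k) = (a + 1).choose 2 - (a - H + 1).choose 2` for `a ≥ H`, and `v - H = 0` for `v ∈ V`. -/
def S_AbsS : Prop := VOF → GenB → Exi → Xch → Ms → AbsS

/-! ## C. Curves -/

/-- CH12. Division by `z - p(x)`. -/
def DivC : Prop := ∀ {R : Type} [CommRing R] [IsDomain R] (p : R[X]) (e : ℕ), 1 ≤ e →
  p.natDegree = e → IsUnit p.leadingCoeff →
  (∀ (H d : ℕ) (f : R[X][X]), e * H ≤ d → In (Tr d) f → ∃ (r : ℕ → R[X][X]) (f' : R[X][X]),
    f = ∑ k ∈ range H, (X - C p) ^ k * r k + (X - C p) ^ H * f' ∧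
    (∀ k < H, In (Tr (d - e * k)) (r k) ∧ ∀ a b : ℕ, ((r k).coeff b).coeff a ≠ 0 → a < e) ∧
    In (Tr (d - e * H)) f') ∧
  (∀ r : R[X][X], (∀ a b : ℕ, (r.coeff b).coeff a ≠ 0 → a < e) → r.eval p = 0 → r = 0) ∧
  (∀ (d : ℕ) (r : R[X][X]), In (Tr d) r → (r.eval p).natDegree ≤ e * d) ∧
  (∀ (d n : ℕ), e ≤ d + 1 → n ≤ e * (d + 1 - e) → ∃ r : R[X][X], In (Tr d) r ∧ r.eval p = X ^ n) ∧
  (∀ (H d : ℕ) (f : R[X][X]), e * H ≤ d → In (Tr (d - e * H)) f → In (Tr d) ((X - C p) ^ H * f))

/-- CH12. Proof. Let `c` be the leading coefficient, `p = c X ^ e + lower terms`. (1) `H = 1`: every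
monomial `x ^ a z ^ b` with `a + b ≤ d` is `r + (z - p) q` with `r` of degree `< e` in `x` and of total degree
`≤ d`, `q` of total degree `≤ d - e`: for `a < e` take `q = 0`; for `a ≥ e`
`x ^ a z ^ b = c⁻¹ x ^ (a - e) z ^ b (z - (z - p) - lower terms)`, and `x ^ (a - e) z ^ (b + 1)` and the
`x ^ (a - e + i) z ^ b`, `i < e`, have smaller degree in `x` and total degree at most `d` (`e ≥ 1`): induction
on `a`. The general case by induction on `H`. (2) With `r = ∑ x ^ i z ^ j`-terms, `i < e`, the terms
`x ^ i p ^ j` of `r.eval p` have the distinct degrees `i + e j`, with leading coefficients multiplied by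
units. (3) `x ^ i p ^ j` has degree at most `i + e j ≤ e (i + j)`. (4) Induction on `n`: `n = i + e j` with
`i < e`; `x ^ i p ^ j = c ^ j x ^ n +` lower terms, and `i + j ≤ (e - 1) + (d + 1 - e) = d` as
`j ≤ d + 1 - e`. (5) `(z - p) ^ H` has total degree at most `e H`. -/
def S_DivC : Prop := DivC

/-- CH13. Taking out a curve `H` times, emptiness. -/
def CutCE : Prop := ∀ (e d H : ℕ) (W M1 M2 : Multiset ℕ), 1 ≤ e → e * H ≤ d →
  EB W M1 (St ((e * d : ℕ) : ℤ) ((e ^ 2 : ℕ) : ℤ) H) →
  EC e (W.map fun w => w - H) M2 (Tr (d - e * H)) → EC e W (M1 + M2) (Tr d)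

/-- CH13. Proof. Take a field `K` with algebraically independent parameters: the coefficients of
`p = cv e α` (of degree `e`), the coordinates `η i` (for `W`), `(x1, y1)` (for `M1`), `(x2, y2)` (for
`M2`). Over `K[t]` take the positions `(η, p(η))`, `(x1, p(x1) + t y1)`, `(x2, y2)`. We use `DegE`. Let `f` over
`K[t]` have exponents in `Tr d` and all multiplicities, and suppose that its value `f0` at `t = 0` is not
`0`. Write `f = ∑ k < H, (z - p) ^ k r k + (z - p) ^ H f'` (CH12 over `K[t]`, `p` with constant coefficients).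
First case: all `r k` vanish at `t = 0`. Then `f0 = (z - p) ^ H f'0`; `taylor p f0 = X ^ H * taylor p f'0`, so
by `VOF.shift`, `VOF.mulX0`, `VOF.mulX` (`y2 - p(x2) ≠ 0`) `f'0` has the multiplicities `W - H` at
`(η, p(η))` and `M2` at `(x2, y2)`; `f'0 = 0` by `GenC`, contradiction. Second case: otherwise let `n` be the
largest integer such that `t ^ n` divides all `t ^ k r k`, `k < H`; `n < H`, as some `r k` is not divisible by
`t`. Put `g = (taylor p f).comp (C (C t) * X) = ∑ k < H, t ^ k X ^ k (taylor p (r k)) (x, t y) + t ^ H (..)`;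
`g = t ^ n g'`, and `g'` has the multiplicities `W` at `(η, 0)` and `M1` at `(x1, y1)` (`VOF.shift`,
`VOF.substY` with `Q = C t`, `VOF.smul`). Its value at `t = 0` is `∑ k < H, X ^ k * C (ρ k (x, p(x)))` with
`ρ k` the value of `t ^ (k - n) r k` at `t = 0` (meaning `r k / t ^ (n - k)` for `k ≤ n`; `0` for `k > n`), as
`(taylor p r) (x, 0) = r.eval p`. It is not `0` by the choice of `n` and CH12 (2), and has exponents in
`St (e d) (e ^ 2) H` by CH12 (3). This contradicts `GenB`. So `Inj` over the fraction field for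
`Tr d`, which is `EmC e (fam W) (Sum.elim (fam M1) (fam M2)) (Tr d)`; `Ms`. -/
def S_CutCE : Prop := VOF → GenB → GenC → Exi → DegE → Ms → DivC → CutCE

/-- CH14. Taking out a curve `H` times, independence. -/
def CutCS : Prop := ∀ (e d H : ℕ) (W M1 M2 : Multiset ℕ), 1 ≤ e → e * H ≤ d →
  SBH H W M1 (St ((e : ℤ) * (d + 1 - e)) ((e ^ 2 : ℕ) : ℤ) H) →
  SC e (W.map fun w => w - H) M2 (Tr (d - e * H)) → SC e W (M1 + M2) (Tr d)

/-- CH14. Proof. Let `T1`, `T2` be the sets of the hypotheses, and `K`, `p`, the positions as in CH13. For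
`(n, k) ∈ T1` one has `n ≤ e (d + 1 - e) - e ^ 2 k = e (d - e k + 1 - e)`, `k < H`; let `r n k` be the
polynomial of CH12 (4) for `d - e k` (`e ≤ d - e k + 1` as `e (k + 1) ≤ e H ≤ d`), and
`g n k = (z - p) ^ k r n k`; for `(a, b) ∈ T2` let `g' a b = (z - p) ^ H x ^ a z ^ b`. All these are in `Tr d`
(CH12 (5)). We show the hypothesis of `Deg` for this family: let `c n k, c' a b ∈ K[t]` be such that the
combination `f` has all multiplicities; with `r k = ∑ n, c n k r n k`, `f' = ∑ c' a b x ^ a z ^ b` it is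
`∑ k < H, (z - p) ^ k r k + (z - p) ^ H f'`. If all `c n k` are divisible by `t` then as in the first case of
CH13 `f'` at `t = 0` is a polynomial with exponents in `T2` with the multiplicities `W - H` and `M2`, so it is
`0`, and all `c' a b` are divisible by `t`. Otherwise as in the second case of CH13, with
`(r k).eval p = ∑ n, c n k x ^ n`: a contradiction to `EB W M1 T1`. So over the fraction field the family
satisfies the hypothesis of `Xch`, which gives `T ⊆ Tr d` with
`T.card = T1.card + T2.card = condM W + condM M1 + condM M2` and `EmC` on `T`; `Ms`. -/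
def S_CutCS : Prop := VOF → GenB → GenC → Exi → Deg → Xch → Ms → DivC → CutCS

/-- CH15. The step of the induction. `up W H` and `W.map (· - H)` differ by zeros. -/
def Rule : Prop :=
  (∀ (e d H : ℕ) (W M1 M2 : Multiset ℕ), 1 ≤ e → e * H ≤ d →
    EB (lo W H) M1 (St (((e * d : ℕ) : ℤ) - ((hi W H).sum : ℕ))
      (((e ^ 2 : ℕ) : ℤ) - ((hi W H).card : ℕ)) H) →
    EC e (up W H) M2 (Tr (d - e * H)) → EC e W (M1 + M2) (Tr d)) ∧
  (∀ (e d H : ℕ) (W M1 M2 : Multiset ℕ), 1 ≤ e → e * H ≤ d →
    (∀ k < H, ((hi W H).map fun a : ℕ => (a : ℤ) - k).sum ≤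
      (e : ℤ) * (d + 1 - e) - ((e ^ 2 : ℕ) : ℤ) * k + 1) →
    SB (lo W H) M1 (St ((e : ℤ) * (d + 1 - e) - ((hi W H).sum : ℕ))
      (((e ^ 2 : ℕ) : ℤ) - ((hi W H).card : ℕ)) H) →
    SC e (up W H) M2 (Tr (d - e * H)) → SC e W (M1 + M2) (Tr d)) ∧
  (∀ (e e' : ℕ) (W M : Multiset ℕ) (S : Set (ℕ × ℕ)), e' ≤ e →
    (EC e' W M S → EC e W M S) ∧ (SC e' W M S → SC e W M S))

/-- CH15. Proof: `W = hi W H + lo W H` (`Multiset.filter_add_not`), CH10 (CH11) and CH13 (CH14); `Ms`
removes the zeros (`ms (fam W) = W`); `condM` of a multiset does not change if zeros are added. The last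
part is `natDegree ≤ e' ≤ e`. -/
def S_Rule : Prop := AbsE → AbsS → CutCE → CutCS → Ms → Rule

end Pool.Agent.H200C
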