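import Pool.Agent.H200C.Stm

/-! # Project CH: statements of the lemmas, with their proofs. Part 2: strips, towers, chains. -/

set_option autoImplicit false

namespace Pool.Agent.H200C

open Finset Polynomial Pool.Agent.TH176.Nag Pool.Agent.TH603.Sur Pool.Agent.TH2.NU Pool.Agent.TH641.UM
open Pool.Agent.Y205.FW Pool.Agent.Y205.MD Pool.Agent.H200W Pool.Agent.H200P

/-! ## D. Lists of units -/

/-- CH16. Dividing a list into two parts, independence. -/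
def DivNS : Prop := ∀ {h u α : ℝ} {n0 n1 : ℕ} (α1 α2 : ℕ → ℝ) (Q : Multiset ℕ → Prop)
  (Q1 Q2 : ℕ → Multiset ℕ → Prop), n0 ≤ n1 → 0 ≤ u → 0 ≤ α1 n0 → u ≤ α1 n1 - α1 n0 →
  (∀ n, n0 ≤ n → n < n1 → α ≤ α1 n + α2 (n + 1)) →
  (∀ n, n0 ≤ n → n ≤ n1 → GS h u (Q1 n) (α1 n)) → (∀ n, n0 ≤ n → n ≤ n1 → GS h u (Q2 n) (α2 n)) →
  (∀ n, n0 ≤ n → n ≤ n1 → ∀ M1 M2, Q1 n M1 → Q2 n M2 → Q (M1 + M2)) → GS h u Q α

/-- CH16. Dividing a list into two parts, emptiness. -/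
def DivNE : Prop := ∀ {h u α : ℝ} {n0 n1 : ℕ} (α1 α2 : ℕ → ℝ) (Q : Multiset ℕ → Prop)
  (Q1 Q2 : ℕ → Multiset ℕ → Prop), n0 ≤ n1 → 0 ≤ u → 0 ≤ α1 n0 → u < α1 n1 - α1 n0 →
  α1 n0 ≤ α → (∀ n, n0 ≤ n → n < n1 → α1 (n + 1) + α2 n ≤ α) →
  (∀ n, n0 ≤ n → n ≤ n1 → GE h u (Q1 n) (α1 n)) → (∀ n, n0 ≤ n → n ≤ n1 → GE h u (Q2 n) (α2 n)) →
  (∀ n, n0 ≤ n → n ≤ n1 → ∀ M1 M2, Q1 n M1 → Q2 n M2 → Q (M1 + M2)) → GE h u Q α

/-- CH16. Proof. Independence. `Q 0`: `Q1 n1 0` and `Q2 n1 0`. Let `L` be a list of total need `τ ≤ α`. If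
`τ ≤ α1 n1` use `n = n1`, everything in the first part. Otherwise let `L1` be the longest initial segment of
`L` with total need `s ≤ α1 n1` (the empty one qualifies); then `s > α1 n1 - u ≥ α1 n0`. Let `n ∈ [n0, n1]` be
the least number with `s ≤ α1 n` (`n1` qualifies); `n > n0`, and `s > α1 (n - 1)`, so
`τ - s < α - α1 (n - 1) ≤ α2 n`. Emptiness. Let `τ ≥ α`, and `L1` the shortest initial segment with
`s ≥ α1 n0` (it exists as `τ ≥ α ≥ α1 n0`); `s < α1 n0 + u < α1 n1` or `s = 0 ≤ α1 n0 < α1 n1`. Let `n ∈ [n0, n1)`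
be the largest number with `α1 n ≤ s` and `s < α1 (n + 1)` (for instance the least `n ≥ n0` with
`s < α1 (n + 1)`; then `α1 n ≤ s`). Then `τ - s > α - α1 (n + 1) ≥ α2 n`. (Compare `divKS`, `divKE` in
H200P/Base.lean; `Q53.WR.split_le`.) -/
def S_DivN : Prop := DivNS ∧ DivNE

/-- CH17. A box with one point on the line. -/
def BoxB : Prop :=
  (∀ {h u : ℝ} {v c H : ℕ}, 1 ≤ h → 5 * h ≤ H → 0 ≤ u → u ≤ (H : ℝ) ^ 2 → v ≤ H →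
    v + 13 * H ≤ c →
    GS h u (fun M => SB {v} M (BX c H)) (2 * (c : ℝ) * H - (v : ℝ) ^ 2)) ∧
  (∀ {h u : ℝ} {v c H : ℕ}, 1 ≤ h → 5 * h ≤ H → 0 ≤ u → u ≤ (H : ℝ) ^ 2 → v ≤ H →
    v + 13 * H ≤ c →
    GE h u (fun M => EB {v} M (BX c H)) (2 * (c : ℝ) * H - (v : ℝ) ^ 2))

/-- CH17. Proof. By CH8 (`{v} = {v} + 0`) and CH7 it suffices that the lists are independent (empty) on
`{(a, k) : 0 ≤ a < c, 0 ≤ k < H, v ≤ a + k}` (and `SurM 0`). Emptiness: this is contained in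
`ZC v c D 0 H` with `D = c + H`: `p_stackE` with `G = H`: `rl v c D 0 = c - v`, `rl v c D H = c` (`v ≤ H`),
`ga v c D H - ga v c D 0 = 2 c H - v ^ 2`. Independence: shifted by `(1, 1)` it contains
`ZO (v + 1) (c + 1) D 0 (H + 1)`, `D = c + H + 2` (`a + k > v + 1`): `p_stackS` with `G = H`:
`rl (v + 1) (c + 1) D 0 = c - v`, `rl (v + 1) (c + 1) D (H + 1) = c + 1`, and
`ga (H + 1) - ga 0 - 6 (H + 1) = 2 (c + 1) (H + 1) - (v + 1) ^ 2 - 6 (H + 1)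
= 2 c H - v ^ 2 + (2 c - 4 H - 2 v - 5) ≥ 2 c H - v ^ 2` as `c ≥ v + 13 H`. (`Sur.shift`, see
Pool/Agent/Q275/WR/Hex.lean.) -/
def S_BoxB : Prop := Block → Tor → BoxB

/-- CH18. A strip without points on the line. -/
def Strip0 : Prop :=
  (∀ {h u : ℝ} {b σ : ℤ} {H : ℕ}, 1 ≤ h → 5 * h ≤ H → (H : ℤ) + 1 ≤ b →
    (H : ℤ) + 1 ≤ b - σ * H →
    GS h u (fun M => SB 0 M (St b σ H)) (2 * (b : ℝ) * H - σ * (H : ℝ) ^ 2)) ∧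
  (∀ {h u : ℝ} {b σ : ℤ} {H : ℕ}, 1 ≤ h → 5 * h ≤ H → (H : ℤ) + 1 ≤ b →
    (H : ℤ) + 1 ≤ b - σ * H →
    GE h u (fun M => EB 0 M (St b σ H)) (2 * (b : ℝ) * H - σ * (H : ℝ) ^ 2))

/-- CH18. Proof. By CH7 it suffices to consider `{(a, k) : 0 ≤ a ≤ b - σ k, 0 ≤ k < H}`. Emptiness:
`Q275.WR.linGoodE p_linE p_fatE` (F1E of WR, see H200W/All.lean) with `l = 0`, `y0 = 0`, `D0 = b`,
`D1 = b - σ H`: `(D0 + D1) H`. Independence: `Q275.WR.linGoodS p_linS p_fatS` with `l = -1` and the open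
interval `(y0, y0 + H')` of the rows, `y0 = -ε`, `y0 + H' = H - 1 + ε'`, `0 < ε, ε' ≤ 1`, row lengths
`D y = b + 2 - σ y` (the row `k` is `-1 < a < b - σ k + 1`). The area is
`(D0 + D1 - 2) H'` with `D0 = b + 2 + σ ε`, `D1 = b + 2 - σ (H - 1 + ε')`. If `σ ≥ 0` take `ε = ε' = 1`: the
area is `(2 b + 2 - σ H + σ) (H + 1) = 2 b H - σ H ^ 2 + σ + 2 b + 2 + 2 H`, and
`D0, D1 ≥ H + 3 ≥ H' + 1 / 2`. If `σ < 0`, put `s = -σ ≥ 1`, `ε' = 1`, `ε = 1 / (s + 1)`: `H' = H + ε`,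
`D0 = b + 2 - s ε ≥ b + 1 ≥ H' + 1 / 2`, `D1 = b + 2 + s H`, and the area is
`(2 b + 2 + s H - s ε) (H + ε) = 2 b H + s H ^ 2 + 2 b ε + 2 (H + ε) - s ε ^ 2 ≥ 2 b H + s H ^ 2`. -/
def S_Strip0 : Prop := Tor → Strip0

/-- CH19. A strip. -/
def StripB : Prop :=
  (∀ {h u : ℝ} {b σ : ℤ} {H : ℕ} (V : Multiset ℕ), 1 ≤ h → 5 * h ≤ H → 0 ≤ u →
    u ≤ (H : ℝ) ^ 2 → (∀ v ∈ V, v ≤ H) →
    ((V.sum + 15 * (V.card + 1) * H : ℕ) : ℤ) ≤ b →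
    ((V.sum + 15 * (V.card + 1) * H : ℕ) : ℤ) ≤ b - σ * H →
    GS h u (fun M => SB V M (St b σ H))
      (2 * (b : ℝ) * H - σ * (H : ℝ) ^ 2 - sq V - 2 * V.card * H)) ∧
  (∀ {h u : ℝ} {b σ : ℤ} {H : ℕ} (V : Multiset ℕ), 1 ≤ h → 5 * h ≤ H → 0 ≤ u →
    u ≤ (H : ℝ) ^ 2 → (∀ v ∈ V, v ≤ H) →
    ((V.sum + 15 * (V.card + 1) * H : ℕ) : ℤ) ≤ b →
    ((V.sum + 15 * (V.card + 1) * H : ℕ) : ℤ) ≤ b - σ * H →
    GE h u (fun M => EB V M (St b σ H))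
      (2 * (b : ℝ) * H - σ * (H : ℝ) ^ 2 - sq V + 2 * V.card * H))

/-- CH19. Proof by induction on `V` (generalising `b`). `V = 0`: CH18. `{v} + V`: CH16 with
`n ∈ [v + 13 H, v + 14 H]`, `Q1 n M = SB {v} M (BX n H)` (CH17), `α1 n = 2 n H - v ^ 2`,
`Q2 n M = SB V M (St (b - n) σ H)` (induction), `α2 n = 2 (b - n) H - σ H ^ 2 - sq V - 2 |V| H`; the cut is
CH9 with `c = n` (`BX n H` is contained in the strip: `n ≤ b`, `n ≤ b - σ H`, and `b - σ k` lies between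
`b` and `b - σ H`). `α1 n0 ≥ 0`, `α1 n1 - α1 n0 = 2 H ^ 2 > u`, and
`α1 n + α2 (n + 1) = 2 b H - σ H ^ 2 - v ^ 2 - sq V - 2 |V| H - 2 H`. Emptiness: the same with `+`
(`α1 n0 = 2 (v + 13 H) H - v ^ 2 ≤ 30 H ^ 2 ≤ α`, as
`2 b H - σ H ^ 2 = (b + (b - σ H)) H ≥ 2 (v + V.sum + 30 H) H`). -/
def S_StripB : Prop := DivNS → DivNE → BoxB → Strip0 → CutV → StripB

/-- CH20. Arithmetic of `up` and `lm`. -/
structure Alg : Prop where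
  up_up : ∀ (W : Multiset ℕ) (k l : ℕ), up (up W k) l = up W (k + l)
  up_zero : ∀ (W : Multiset ℕ) (m : ℕ), (∀ w ∈ W, w ≤ m) → up W m = 0
  /-- shifting -/
  lm_shift : ∀ (B ρ : ℤ) (W : Multiset ℕ) (k l : ℕ),
    lm (B - ρ * k) ρ (up W k) l = lm B ρ W (k + l)
  /-- the slope -/
  lm_succ : ∀ (B ρ : ℤ) (W : Multiset ℕ) (k : ℕ),
    lm B ρ W (k + 1) = lm B ρ W k - ρ + ((W.filter fun w => k < w).card : ℕ)
  sq_succ : ∀ (W : Multiset ℕ) (k : ℕ),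
    sq (up W k) - sq (up W (k + 1)) = ((up W k).sum : ℝ) + ((up W (k + 1)).sum : ℝ)
  /-- the lengths of the strip -/
  lm_lo : ∀ (b ρ : ℤ) (W : Multiset ℕ) (H : ℕ), (∀ w ∈ W, 0 < w) →
    lm b ρ W 0 = b - ((hi W H).sum : ℕ) - ((lo W H).sum : ℕ) ∧
    lm b ρ W H = b - ((hi W H).sum : ℕ) - (ρ - ((hi W H).card : ℕ)) * H
  /-- the area of the strip -/
  area : ∀ (b ρ : ℤ) (W : Multiset ℕ) (F : ℕ → ℝ) (H : ℕ), (∀ w ∈ W, 0 < w) →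
    (∀ k < H, F k - F (k + 1) = (lm b ρ W k : ℝ) + (lm b ρ W (k + 1) : ℝ)) →
    F 0 - F H = 2 * ((b : ℝ) - (hi W H).sum) * H - ((ρ : ℝ) - (hi W H).card) * (H : ℝ) ^ 2 -
      sq (lo W H)
  /-- concavity -/
  conc : ∀ (b ρ : ℤ) (W : Multiset ℕ) (k l m : ℕ), k ≤ l → l ≤ m →
    ((m : ℤ) - l) * lm b ρ W k + ((l : ℤ) - k) * lm b ρ W m ≤ ((m : ℤ) - k) * lm b ρ W l
  /-- the trapezoidal rule -/
  trap : ∀ (b ρ : ℤ) (W : Multiset ℕ) (F : ℕ → ℝ) (k l : ℕ), k ≤ l →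
    (∀ j < l, F j - F (j + 1) = (lm b ρ W j : ℝ) + (lm b ρ W (j + 1) : ℝ)) →
    ((l : ℝ) - k) * ((lm b ρ W k : ℝ) + (lm b ρ W l : ℝ)) ≤ F k - F l

/-- CH20. Proofs. `up_up`: filters and maps. `lm_succ`: `(w - k) - (w - (k + 1))` is `1` for `w > k` and
`0` otherwise. `sq_succ`: `(w - k) ^ 2 - (w - k - 1) ^ 2 = (w - k) + (w - k - 1)` for `w > k`. `lm_lo`:
`up W 0 = W`, `(up W H).sum = (hi W H).sum - (hi W H).card * H`. `area`: by summation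
`F 0 - F H = ∑ k < H, (lm k + lm (k + 1))`, and for one `w`: `∑ k < H, ((w - k) + (w - k - 1))`
(truncated) is `w ^ 2` for `w < H` and `w ^ 2 - (w - H) ^ 2 = 2 w H - H ^ 2` for `w ≥ H`; `b` and `ρ` contribute
`2 b H - ρ H ^ 2`. (Induction on `W`, or on `H`.) `conc`: the slopes decrease by `lm_succ`. `trap`: sum of
`lm j + lm (j + 1)` over `k ≤ j < l`, and `conc` in the form
`(l - k) (lm j + lm (l + k - j)) ≥ (l - k) (lm k + lm l)` for symmetric pairs (or: `conc` gives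
`(l - k) lm j ≥ (l - j) lm k + (j - k) lm l`, and sum over `j`). -/
def S_Alg : Prop := Alg

/-- CH21. One step, independence. -/
def StepS : Prop := ∀ {h u δ : ℝ} {H0 : ℕ} {b ρ : ℤ} {U : Multiset ℕ} (F : ℕ → ℝ)
  (Q : Multiset ℕ → Prop) (Q2 : ℕ → Multiset ℕ → Prop), 1 ≤ h → 5 * h ≤ H0 → 0 ≤ u →
  u ≤ (H0 : ℝ) ^ 2 → 4 ≤ δ * H0 → δ ≤ 1 → 0 ≤ ρ → (∀ w ∈ U, 0 < w) → ρ ≤ lm b ρ U 0 →
  32 * (((U.filter fun w => w ≤ 2 * H0).card : ℕ) + 1) * (H0 : ℤ) ≤ lm b ρ U 0 →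
  (∀ n, H0 ≤ n → n ≤ 2 * H0 →
    32 * (((U.filter fun w => w ≤ 2 * H0).card : ℕ) + 1) * (H0 : ℤ) ≤ lm b ρ U n) →
  (∀ k < 2 * H0, F k - F (k + 1) = (lm b ρ U k : ℝ) + (lm b ρ U (k + 1) : ℝ)) →
  (∀ n, H0 ≤ n → n ≤ 2 * H0 → GS h u (Q2 n) ((1 - δ) * F n)) →
  (∀ n, H0 ≤ n → n ≤ 2 * H0 → ∀ M1 M2 : Multiset ℕ,
    SB (lo U n) M1 (St (b - ((hi U n).sum : ℕ)) (ρ - ((hi U n).card : ℕ)) n) →
    Q2 n M2 → Q (M1 + M2)) → GS h u Q ((1 - δ) * F 0)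

/-- CH21. One step, emptiness. -/
def StepE : Prop := ∀ {h u δ : ℝ} {H0 : ℕ} {b ρ : ℤ} {U : Multiset ℕ} (F : ℕ → ℝ)
  (Q : Multiset ℕ → Prop) (Q2 : ℕ → Multiset ℕ → Prop), 1 ≤ h → 5 * h ≤ H0 → 0 ≤ u →
  u ≤ (H0 : ℝ) ^ 2 → 4 ≤ δ * H0 → δ ≤ 1 → 0 ≤ ρ → (∀ w ∈ U, 0 < w) → ρ ≤ lm b ρ U 0 →
  32 * (((U.filter fun w => w ≤ 2 * H0).card : ℕ) + 1) * (H0 : ℤ) ≤ lm b ρ U 0 →
  (∀ n, H0 ≤ n → n ≤ 2 * H0 →
    32 * (((U.filter fun w => w ≤ 2 * H0).card : ℕ) + 1) * (H0 : ℤ) ≤ lm b ρ U n) →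
  (∀ k < 2 * H0, F k - F (k + 1) = (lm b ρ U k : ℝ) + (lm b ρ U (k + 1) : ℝ)) →
  (∀ n, H0 ≤ n → n ≤ 2 * H0 → 0 ≤ F n ∧ GE h u (Q2 n) ((1 + δ) * F n)) →
  (∀ n, H0 ≤ n → n ≤ 2 * H0 → ∀ M1 M2 : Multiset ℕ,
    EB (lo U n) M1 (St (b - ((hi U n).sum : ℕ)) (ρ - ((hi U n).card : ℕ)) n) →
    Q2 n M2 → Q (M1 + M2)) → GE h u Q ((1 + δ) * F 0)

/-- CH21. Proof. Let `g` be the number of `w ∈ U` with `w ≤ 2 H0`, and write `lm n` for `lm b ρ U n`. CH16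
with `n ∈ [H0, 2 H0]`, `Q1 n M = SB (lo U n) M (St ..)`, `α1 n = F 0 - F n - 4 g H0`,
`α2 n = (1 - δ) * F n`, `α = (1 - δ) * F 0`. `Q1` is good by CH19 with `H = n`: `|lo U n| ≤ g`; by `lm_lo`,
`b - (hi).sum = lm 0 + (lo).sum` and `15 (|lo| + 1) n ≤ 30 (g + 1) H0 ≤ lm 0`;
`b - (hi).sum - (ρ - |hi|) n = lm n`, and `(lo).sum + 15 (|lo| + 1) n ≤ 16 (g + 1) n ≤ 32 (g + 1) H0`; its
need is by `area` at least `F 0 - F n - 2 |lo| n ≥ α1 n`. `α1 n0 ≥ 0` and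
`α1 (2 H0) - α1 H0 = F H0 - F (2 H0) ≥ H0 (lm H0 + lm (2 H0)) ≥ 64 H0 ^ 2` by `trap`. Finally
`α1 n + α2 (n + 1) - α = δ (F 0 - F (n + 1)) - (F n - F (n + 1)) - 4 g H0`, and
`δ (F 0 - F (n + 1)) ≥ δ (n + 1) (lm 0 + lm (n + 1)) ≥ 4 (lm 0 + lm (n + 1))`,
`F n - F (n + 1) = lm n + lm (n + 1) ≤ 2 lm (n + 1) + ρ ≤ 2 lm (n + 1) + lm 0` (`lm_succ`), `4 g H0 ≤ lm 0`.
Emptiness: `α1 n = F 0 - F n + 4 g H0`, `α2 n = (1 + δ) * F n`, `α = (1 + δ) * F 0`;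
`α - α1 (n + 1) - α2 n = δ (F 0 - F n) - (F n - F (n + 1)) - 4 g H0`,
`δ (F 0 - F n) ≥ 4 (lm 0 + lm n)`, and `lm (n + 1) ≤ 2 lm n` (by `conc` for `0 ≤ n ≤ n + 1`:
`lm 0 + n lm (n + 1) ≤ (n + 1) lm n`), so `lm n + lm (n + 1) + 4 g H0 ≤ 3 lm n + lm 0`. `α1 H0 ≤ α`:
`4 g H0 ≤ δ F 0 + F H0`, since `F H0 ≥ 0` and `δ F 0 ≥ δ (F 0 - F H0) ≥ 4 lm 0`. -/
def S_Step : Prop := DivNS → DivNE → StripB → Alg → StepS ∧ StepE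

/-- CH22. A tower, independence. -/
def TowerS : Prop := ∀ {h u δ : ℝ} {H0 hh : ℕ} {B ρ : ℤ} {W : Multiset ℕ} (F : ℕ → ℝ)
  (Q : ℕ → Multiset ℕ → Prop), 1 ≤ h → 5 * h ≤ H0 → 0 ≤ u → u ≤ (H0 : ℝ) ^ 2 → 4 ≤ δ * H0 →
  δ ≤ 1 → 1 ≤ ρ →
  (∀ k < hh + 128 * H0, F k - F (k + 1) = (lm B ρ W k : ℝ) + (lm B ρ W (k + 1) : ℝ)) →
  (∀ k, hh ≤ k → k ≤ hh + 128 * H0 → GS h u (Q k) ((1 - δ) * F k)) →
  66 * ρ * H0 ≤ lm B ρ W hh →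
  2 ^ 12 * ρ * H0 * (1 + ((W.filter fun w => 0 < w ∧ w ≤ 128 * H0).card : ℕ)) ≤ lm B ρ W 0 →
  (∀ k n : ℕ, k + n ≤ hh + 128 * H0 → 0 ≤ lm B ρ W k → 0 ≤ lm B ρ W (k + n) →
    ∀ M1 M2 : Multiset ℕ, SB (lo (up W k) n) M1
      (St (B - ρ * k - ((hi (up W k) n).sum : ℕ)) (ρ - ((hi (up W k) n).card : ℕ)) n) →
    Q (k + n) M2 → Q k (M1 + M2)) → GS h u (Q 0) ((1 - δ) * F 0)

/-- CH22. A tower, emptiness. -/
def TowerE : Prop := ∀ {h u δ : ℝ} {H0 hh : ℕ} {B ρ : ℤ} {W : Multiset ℕ} (F : ℕ → ℝ)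
  (Q : ℕ → Multiset ℕ → Prop), 1 ≤ h → 5 * h ≤ H0 → 0 ≤ u → u ≤ (H0 : ℝ) ^ 2 → 4 ≤ δ * H0 →
  δ ≤ 1 → 1 ≤ ρ →
  (∀ k < hh + 128 * H0, F k - F (k + 1) = (lm B ρ W k : ℝ) + (lm B ρ W (k + 1) : ℝ)) →
  (∀ k, hh ≤ k → k ≤ hh + 128 * H0 → 0 ≤ F k ∧ GE h u (Q k) ((1 + δ) * F k)) →
  66 * ρ * H0 ≤ lm B ρ W hh →
  2 ^ 12 * ρ * H0 * (1 + ((W.filter fun w => 0 < w ∧ w ≤ 128 * H0).card : ℕ)) ≤ lm B ρ W 0 →
  (∀ k n : ℕ, k + n ≤ hh + 128 * H0 → 0 ≤ lm B ρ W k → 0 ≤ lm B ρ W (k + n) →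
    ∀ M1 M2 : Multiset ℕ, EB (lo (up W k) n) M1
      (St (B - ρ * k - ((hi (up W k) n).sum : ℕ)) (ρ - ((hi (up W k) n).card : ℕ)) n) →
    Q (k + n) M2 → Q k (M1 + M2)) → 0 ≤ F 0 ∧ GE h u (Q 0) ((1 + δ) * F 0)

/-- CH22. Proof (the same for both; the signs `0 ≤ F k` are only needed for emptiness). We show
`0 ≤ F k` and the claim for `Q k`, `(1 ± δ) F k`, for all `64 H0 ≤ k ≤ hh + 128 H0` by strong downward
induction, and then for `k = 0`. Write `lm k` for `lm B ρ W k`;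
it is concave (`conc`), with slope `n k - ρ` after `k`, `n k = #{w ∈ W : k < w}` (`lm_succ`). For `k ≥ hh` it
is a hypothesis. For `0 ≤ k ≤ hh`: `lm k ≥ min (lm 0) (lm hh) ≥ 66 ρ H0`, so `F` decreases on `[0, hh]` and is
nonnegative. Let `64 H0 ≤ k < hh`. CH21 with `U = up W k`, `b = B - ρ k`, `F (k + ·)`, `Q k`, `Q (k + ·)`
(`lm_shift`; `k + 2 H0 ≤ hh + 128 H0`; for `k + n < hh` the induction hypothesis, otherwise the hypothesis of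
the lemma; all `lm (k + n)` that occur are `≥ 0`). Let `g` be the number of `w ∈ U` with `w ≤ 2 H0`, `g ≤ n k`. One
has `lm k ≥ lm 0 + k (n k - ρ)` and `lm (k + n) ≥ lm k - ρ n ≥ lm k - 2 ρ H0` for `n ≤ 2 H0` (`lm_succ`). If
`n k ≥ 2 ρ`: `lm k ≥ lm 0 + 64 H0 (n k) / 2`, so
`lm k - 2 ρ H0 ≥ lm 0 - 2 ρ H0 + 32 (n k) H0 ≥ 32 (g + 1) H0` as `lm 0 ≥ 2 ^ 12 ρ H0`. If `n k < 2 ρ`:
`32 (g + 1) H0 ≤ 64 ρ H0 ≤ lm k - 2 ρ H0`. `ρ ≤ lm k`. For `k = 0` (if `hh = 0` nothing is to be shown): CH21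
with `64 H0` instead of `H0`, `U = up W 0` (the nonzero elements of `W`): now `g` is the number of `w ∈ W` with
`0 < w ≤ 128 H0`, `lm n ≥ lm 0 - 128 ρ H0` for `n ≤ 128 H0`, and
`2 ^ 12 ρ H0 (1 + g) - 128 ρ H0 ≥ 32 (g + 1) 64 H0`; for `64 H0 ≤ n ≤ 128 H0` the claim for `Q n` is known
(induction if `n < hh`, hypothesis otherwise). -/
def S_Tower : Prop := StepS → StepE → Alg → TowerS ∧ TowerE

/-- CH23. One point of arbitrary multiplicity in a triangle. -/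
def Quad : Prop := ∀ {h δ : ℝ} {H0 M : ℕ}, 1 ≤ h → 1024 * h ≤ H0 → 4 ≤ δ * H0 → δ ≤ 1 →
  BaseK h δ {M} (M + H0)

/-- CH23. Proof. `HX 0 0 0 D = {0 ≤ x, 0 ≤ y, x + y ≤ D}`, `G = 32 h`, so `1024 h ^ 2 = G ^ 2`,
`15 G ≤ H0 ≤ D - M`. Emptiness: the points with `x > D - M` are
`{x ≥ D - M + 1, y ≥ 0, x + y ≤ D}`, a translate of the corner of `M` (`Pool.Agent.H200P`'s PK1, TipC:
third part), the others are `QC (D - M) D`; cut by `x = D - M` (`p_cutE`); PK3E (QuadE) gives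
`2 (D - M) D - (D - M) ^ 2 = D ^ 2 - M ^ 2`. Independence: shift by `(1, 1)`: the points with
`x ≤ D - M + 1` contain `QO (D - M + 2) (D + 3)`, those with `x ≥ D - M + 2` are `{y ≥ 1, x + y ≤ D + 2}`, a
translate of the first set of TipC; PK3 (QuadS) gives `2 w D' - w ^ 2 - 6 D'`, `w = D - M + 2`, `D' = D + 3`,
which is `D ^ 2 - M ^ 2 - 2 M - 10 ≥ (1 - δ) (D ^ 2 - M ^ 2)`, because
`δ (D ^ 2 - M ^ 2) = δ (D - M) (D + M) ≥ 4 (D + M) ≥ 2 M + 10`. `SurM {M}`, `EmpM`: `GoodSK.union`-like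
arguments, see the proofs of PK2 (BoxS, BoxE) in the files imported by H200P/All.lean. -/
def S_Quad : Prop := Quad

/-- CH24. A chain of curves. -/
def Multi : Prop := ∀ {h δ : ℝ} {H0 d D1 m : ℕ} {K W : Multiset ℕ} {E : ℕ → ℕ}, 1 ≤ h →
  1024 * h ≤ H0 → 4 ≤ δ * H0 → δ ≤ 1 → BaseK h δ K D1 → Chain H0 d D1 W E m →
  GS h (1024 * h ^ 2) (fun X => SC (E 0) W (K + X) (Tr d))
    ((1 - δ) * (((d : ℝ) - E 0 + 1) ^ 2 - sq K - sq W)) ∧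
  GE h (1024 * h ^ 2) (fun X => EC (E 0) W (K + X) (Tr d))
    ((1 + δ) * ((d : ℝ) ^ 2 - sq K - sq W))

/-- CH24. Proof. Put `dE y = d - ∑ j < y, E j`, an integer, and call `z` a start if `z = 0` or
`E z < E (z - 1)`. For `y, D : ℕ` let `P y D` be the conjunction of
`GS .. (fun X => SC (E y) (up W y) (K + X) (Tr D)) ((1 - δ) * ((D - E y + 1) ^ 2 - sq K - sq (up W y)))`,
`GE .. (fun X => EC (E y) (up W y) (K + X) (Tr D)) ((1 + δ) * (D ^ 2 - sq K - sq (up W y)))` and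
`0 ≤ D ^ 2 - sq K - sq (up W y)`.
(a) `P y D` if `m ≤ y` and `D ≥ D1 + 128 (E 0) H0`: `up W y = 0`, `BaseK` for `D`, and
`(D - E y + 1) ^ 2 ≤ D ^ 2` as `1 ≤ E y ≤ D`; CH7 (`HX 0 0 0 D` is `TZ D`, `qd` of it is `Tr D`).
(b) `P y D` if `y < m`, `z ≤ y ≤ z + 128 H0` for a start `z` with `E z = E y`, and
`D ≥ dE y - 128 H0 (E 0 - E y)`. Strong downward induction on `y`. Let `e = E y` and let `y'` be the least
number `> y` with `E y' < e` or `y' = m`; `hh = y' - y`. One has `dE y' ≥ dE m ≥ D1 + 2 ^ 8 (E 0) H0` and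
`D - e hh ≥ dE y' - 128 H0 (E 0 - e)`; so `D - e (hh + θ) ≥ dE y' - 128 H0 (E 0) ≥ D1 + 128 (E 0) H0` for
`θ ≤ 128 H0` (so all subtractions below are honest). CH22 with `up W y` for `W`,
`u = 1024 h ^ 2`, `ρ = e ^ 2`: TowerE with `B = e D`, `F k = (D - e k) ^ 2 - sq K - sq (up W (y + k))`,
`Q k X = EC e (up W (y + k)) (K + X) (Tr (D - e k))`; TowerS with `B = e (D + 1 - e)`,
`F k = (D - e + 1 - e k) ^ 2 - sq K - sq (up W (y + k))` and `SC`. The identity for `F` is `sq_succ` and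
`(D - e k) ^ 2 - (D - e k - e) ^ 2 = (e D - e ^ 2 k) + (e D - e ^ 2 (k + 1))`. The rule is CH15 for
`d = D - e k` (`K + (M1 + M2) = M1 + (K + M2)`; for independence the inequalities
`∑ (a - j) ≤ B - ρ k - ρ j + 1` over `hi (up W (y + k)) n`, `j < n`, follow from `lm k ≥ 0` and
`lm (k + n) ≥ 0`, as both sides are affine in `j`, see `lm_lo`). The states `y + k = y' + θ`,
`0 ≤ θ ≤ 128 H0`, with `D' = D - e (hh + θ)`: if `y' + θ ≥ m` this is (a); otherwise (b) for the induction: the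
least `z` with `E z = E (y' + θ)` is a start, `y' ≤ z ≤ y' + θ`, and
`D' ≥ dE y' - e θ - 128 H0 (E 0 - e) ≥ dE (y' + θ) + E (y' + θ) θ - e θ - 128 H0 (E 0 - e)
≥ dE (y' + θ) - 128 H0 (E 0 - E (y' + θ))`. From `E (y + k) ≤ e` one gets the statements for `e` (CH15, third
part, and `(D' - e + 1) ^ 2 ≤ (D' - E (y + k) + 1) ^ 2` since `D' - e + 1 ≥ 0`).
`lm` at `y'`: let `s` be the sum of `up W y'`. If `y' = m`:
`e (D - e + 1 - e hh) ≥ e (D1 + 128 (E 0) H0 - e) ≥ 66 e ^ 2 H0`. If `y' < m`, with `e' = E y' < e`: the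
condition of the chain at the start `y'` gives `s + 2 ^ 13 H0 e' (E 0) ≤ e' dE y'`, so
`lm ≥ e (dE y' - 128 H0 (E 0 - e) - e) - s ≥ (e - e') dE y' + 2 ^ 13 H0 e' (E 0) - 128 e H0 (E 0) - e ^ 2
≥ 2 ^ 8 e (E 0) H0 - 128 e (E 0) H0 - e ^ 2 ≥ 66 e ^ 2 H0` (`dE y' ≥ 2 ^ 8 (E 0) H0`). `lm` at `y`, with the start
`z`, `θ = y - z ≤ 128 H0`: the number `g` of `w ∈ W` with `y < w ≤ y + 128 H0` is at most that of the
`w` with `z < w ≤ z + 256 H0`, and `(up W y).sum ≤ (up W z).sum`, `dE y = dE z - e θ`, so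
`lm ≥ e (dE z - e θ - 128 H0 (E 0 - e) - e) - (up W z).sum
≥ 2 ^ 13 H0 e (E 0 + e g) - 256 H0 e (E 0) - e ^ 2 ≥ 2 ^ 12 e ^ 2 H0 (1 + g)`.
(For emptiness `B = e D` is larger than `e (D + 1 - e)`.) The claim is `P 0 d`: if `m = 0` it is (a),
otherwise (b); `W` may be replaced by `up W 0` (`Ms`; `sq W = sq (up W 0)`, the same for `condM`). -/
def S_Multi : Prop := TowerS → TowerE → Alg → Rule → Tor → Ms → Multi

/-- CH25. The windows. -/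
def WinC : Prop := ∀ {t d M m : ℕ} {W : Multiset ℕ} {E : ℕ → ℕ}, 1 ≤ t →
  Chain (2 ^ 18 * t) d (M + 2 ^ 18 * t) W E m → WinAb (256 * t) ({M} + W) d

/-- CH25. Proof. `h = 256 t`, `H0 = 2 ^ 18 t = 1024 h`, `δ = 4 / H0 = 1 / (2 ^ 16 t)`. Let `f ≥ d`; the
chain condition holds for `f` too. Put `e = E 0`, `F = f ^ 2 - M ^ 2 - sq W`, `X = 2 |HX 0 0 0 f| - 2 condM ({M} + W)
= (f + 1) (f + 2) - M (M + 1) - ∑ w (w + 1) = F + 3 f + 2 - M - ∑ w` (`p_card`). `M ≤ f`, `∑ w ≤ e f` (the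
chain condition for `k = 0`, if `m > 0`; otherwise all `w = 0`). Let `Λ = δ F + (2 e + 3) f + 2`. CH24 with
`K = {M}` (CH23) and CH7: `GS` for `SurM (W + ({M} + X)) (HX 0 0 0 f)` with
`(1 - δ) ((f - e + 1) ^ 2 - M ^ 2 - sq W) ≥ (1 - δ) (F - 2 (e - 1) f) ≥ F - δ F - 2 (e - 1) f ≥ X - Λ`, and `GE` with
`(1 + δ) F ≤ X + Λ`. Lower bound: `F ≥ 2 ^ 8 e H0 f`. Let `dE k = f - ∑ j < k, E j`,
`l k = (E k) dE k - (up W k).sum`. For `k < m`, `F k = (dE k) ^ 2 - M ^ 2 - sq (up W k)` satisfies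
`F k - F (k + 1) = l k + ((E k) dE (k + 1) - (up W (k + 1)).sum)`, and both are at least
`2 ^ 8 (E k) e H0` resp. `0`: on a maximal interval `[z, z']` on which `E = E z` (for indices `< z'`), with
`z' ≤ m`, the function `(E z) dE k - (up W k).sum` is concave, at `z` at least
`2 ^ 13 H0 (E z) e`, at `z' = m` it is `(E z) dE m ≥ 2 ^ 8 (E z) e H0`, at a start `z' < m` it is at least
`(E z - E z') dE z' + 2 ^ 13 H0 (E z') e ≥ 2 ^ 8 (E z) e H0`. So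
`F 0 ≥ 2 ^ 8 e H0 ∑ k < m, E k + F m` and `F m = (dE m - M) (dE m + M) ≥ 2 ^ 8 e H0 dE m`. Hence
`F ≥ 2 ^ 26 e t f`, and `Λ + 2 (f + 2) ≤ X / (64 h)`, `64 h = 2 ^ 14 t`: `X ≥ F - e f`, and
`(2 e + 5) f + 6 + e f / (2 ^ 14 t) ≤ 3 F / (2 ^ 16 t)`, since the right hand side is at least `3072 e f` (and
`f ≥ 1`). -/
def S_WinC : Prop := Multi → Quad → Tor → Alg → Ms → WinC

end Pool.Agent.H200C
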