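import Pool.Agent.H200C.Stm2
import Pool.Agent.H200W.Stm5

/-! # Project CH: statements of the lemmas, with their proofs. Part 3: coranks, the main theorem.

CH26 - CH30 are PK11 - PK15 (Pool/Agent/H200P/Stm2.lean, Stm3.lean) with the windows `WinAb` instead of the
packing condition; the proofs of PK11 - PK15 are in Pool/Agent/Q285/PK/Leaf.lean, Pool/Agent/Q211/PK/NumK.lean,
Pool/Agent/Q285/PK/Cor.lean, Pool/Agent/Q211/PK/Cor2K.lean, Pool/Agent/Q195/PK/ExpK.lean and can be copied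
with small changes. -/

set_option autoImplicit false

namespace Pool.Agent.H200C

open Finset Pool.Agent.TH176.Nag Pool.Agent.TH603.Sur Pool.Agent.TH2.NU Pool.Agent.TH641.UM
open Pool.Agent.Y205.FW Pool.Agent.Y205.MD Pool.Agent.H200W Pool.Agent.H200P
open Pool.Agent.H932R3 Pool.Agent.W609.CR

/-- CH26. The corank of a leaf. -/
def LeafA : Prop := ∀ {h : ℝ} {d : ℕ} (K : Multiset ℕ) (V : Finset ℕ)
  (N a : ℕ → ℕ) (R : List (ℕ × ℕ)), 256 ≤ h → WinAb h K d →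
  (∀ v ∈ V, 1 ≤ N v ∧ 16 ≤ a v ∧ 16 * ((a v : ℝ) + 1) ≤ h ∧ 4 * h ≤ N v * (a v : ℝ)) →
  (∀ x ∈ R, 1 ≤ x.1 ∧ 1 ≤ x.2 ∧ 16 * ((x.2 : ℝ) + 1) ≤ h ∧ x.1 * ((x.2 : ℝ) + 1) ≤ 256 * h) →
  257 * h ^ 2 * ((R.length : ℝ) + V.card) ≤ ∑ v ∈ V, (N v : ℝ) * (a v : ℝ) ^ 2 →
  crkM (HX 0 0 0 d) (K + lf V N a R) = 0 ∨
    crkM (HX 0 0 0 d) (K + lf V N a R) + TH2.NU.condM (K + lf V N a R) ≤ (HX 0 0 0 d).card ∨
    (2 * (TH2.NU.condM (K + lf V N a R) : ℝ) - E0 V N a R -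
          (2 * (TH2.NU.condM (lf V N a R) : ℝ) + E0 V N a R) / (32 * h) < 2 * (HX 0 0 0 d).card ∧
      2 * (crkM (HX 0 0 0 d) (K + lf V N a R) : ℝ) ≤
        E0 V N a R + (2 * (TH2.NU.condM (lf V N a R) : ℝ) + E0 V N a R) / (32 * h))

/-- CH26. Proof (compare PK11). Let `A = 2 condM (lf V N a R)`, `X f = 2 |HX 0 0 0 f| - 2 condM K`, `Λ f` as in
`WinAb`, `Z = (A + E0) / (32 h)`. `p_units` gives a list of units of total need at most `A + E0` for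
independence, at least `A - E0` for emptiness. If `X d + Λ d ≤ A - E0`: empty, corank `0`. If
`A + E0 ≤ X d - Λ d`: independent, second case. Otherwise, for every `f ≥ d` with `X f - Λ f < A + E0` one has
`Λ f ≤ X f / (64 h)`, so `X f ≤ 2 (A + E0)` and `Λ f + 2 (f + 2) ≤ X f / (64 h) ≤ Z`. For `f = d`:
`A - E0 < X d + Λ d ≤ X d + Z`, the first part of the third case. Let `f + 1` be the least number `> d`
with `A + E0 ≤ X (f + 1) - Λ (f + 1)` (it exists: `X f ≥ 128 h (f + 2)` and `X f - Λ f ≥ X f / 2`); then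
`K + lf` is independent on `HX 0 0 0 (f + 1) ⊇ HX 0 0 0 d`, and the corank is monotone in the set, so
`2 crk ≤ X (f + 1) - A = X f + 2 (f + 2) - A < E0 + Λ f + 2 (f + 2) ≤ E0 + Z`. -/
def S_LeafA : Prop := LeafA

/-- CH27. The numbers. -/
def NumA : Prop := ∀ {h : ℝ} {d μ : ℕ} (K : Multiset ℕ) (V : Finset ℕ)
  (N : ℕ → ℕ) (R : List (ℕ × ℕ)), 1 ≤ μ → h = 256 * ((μ : ℝ) + 1) → WinAb h K d →
  (∀ v ∈ V, 1 ≤ v ∧ v ≤ μ ∧ 1 ≤ N v ∧ 4 * h ≤ N v * (16 * (v : ℝ))) →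
  (∀ x ∈ R, 1 ≤ x.1 ∧ 1 ≤ x.2 ∧ x.2 ≤ μ ∧ x.1 * ((x.2 : ℝ) + 1) ≤ 256 * h) →
  257 * h ^ 2 * ((R.length : ℝ) + V.card) ≤ ∑ v ∈ V, (256 * N v : ℝ) * (v : ℝ) ^ 2 →
  ∀ a g0 g1 : ℕ → ℕ, (∀ v ∈ V, Leaf 4 (N v) v (a v) (g0 v) (g1 v)) →
  crkM (HX 0 0 0 d) (K + lf V N a R) ≤
    ((HX 0 0 0 d).card - TH2.NU.condM (K + lf V (fun v => 256 * N v) (fun v => v) R)) + ∑ v ∈ V, g0 v

/-- CH27. Proof: as PK12 (S_NumK, the docstring there), with CH26 instead of PK11. -/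
def S_NumA : Prop := LeafA → NumA

/-- CH28. The corank is as expected. -/
def CorankA : Prop := ∀ {d μ : ℕ} (K w : Multiset ℕ), 1 ≤ μ → WinAb (256 * ((μ : ℝ) + 1)) K d →
  (∀ v ∈ w, 1 ≤ v ∧ v ≤ μ) →
  2 ^ 28 * w.toFinset.card * μ ^ 2 ≤ (w.map fun v => v ^ 2).sum →
  crkM (HX 0 0 0 d) (K + w) ≤ (HX 0 0 0 d).card - TH2.NU.condM (K + w)

/-- CH28. Proof: as PK13 (S_CorankK), with CH27 instead of PK12. -/
def S_CorankA : Prop := NumA → CorankA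

/-- CH29. The same if enough room is left by `K`. -/
def CorankA2 : Prop := ∀ {d μ : ℕ} (K w : Multiset ℕ), 1 ≤ μ → WinAb (256 * ((μ : ℝ) + 1)) K d →
  (∀ v ∈ w, 1 ≤ v ∧ v ≤ μ) →
  TH2.NU.condM K + 2 ^ 29 * (w.toFinset.card + 1) * μ ^ 2 ≤ (HX 0 0 0 d).card →
  crkM (HX 0 0 0 d) (K + w) ≤ (HX 0 0 0 d).card - TH2.NU.condM (K + w)

/-- CH29. Proof: as PK14 (S_CorankK2), with CH28 instead of PK13. -/
def S_CorankA2 : Prop := CorankA → CorankA2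

/-- The class `(d; w)`: one arbitrary multiplicity `w p`, any number of arbitrary multiplicities `w i`,
`i ∈ A`, with a chain of curves of degrees `E 0 ≥ E 1 ≥ ...` (see `Chain`), the others at most `μ` and with
at most `s` values, and the sum of their squares is large, or much room is left by the first ones. -/
def ChainAt {n : ℕ} (d : ℕ) (w : Fin n → ℕ) : Prop :=
  ∃ (p : Fin n) (A : Finset (Fin n)) (E : ℕ → ℕ) (m μ s : ℕ), p ∉ A ∧ Antitone E ∧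
    (∀ k, 1 ≤ E k) ∧ 1 ≤ μ ∧ (∀ i ∈ A, w i ≤ m) ∧ (∀ i, i ≠ p → i ∉ A → w i ≤ μ) ∧
    ((univ \ insert p A).image w).card ≤ s ∧
    w p + ∑ j ∈ range m, E j + 2 ^ 27 * (μ + 1) * E 0 ≤ d ∧
    (∀ k < m, (k = 0 ∨ E k < E (k - 1)) → ∑ i ∈ A, (w i - k) + E k * ∑ j ∈ range k, E j +
      2 ^ 31 * (μ + 1) * E k *
        (E 0 + E k * (A.filter fun i => k < w i ∧ w i ≤ k + 2 ^ 26 * (μ + 1)).card) ≤ E k * d) ∧
    (2 ^ 28 * s * μ ^ 2 ≤ ∑ i ∈ univ \ insert p A, w i ^ 2 ∨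
      ∑ i ∈ insert p A, w i * (w i + 1) + 2 ^ 30 * (s + 1) * μ ^ 2 ≤ (d + 1) * (d + 2))

/-- the main theorem -/
def ExpA : Prop := ∀ {n d : ℕ} {w : Fin n → ℕ}, ChainAt d w → GenExp d w

/-- CH30. From the corank to general points. Proof: as PK15 (S_ExpK). `W` is the multiset of the `w i`,
`i ∈ A`, `K = {w p} + W`; CH25 with `t = μ + 1` (`H0 = 2 ^ 18 (μ + 1)`, `256 H0 = 2 ^ 26 (μ + 1)`,
`2 ^ 13 H0 = 2 ^ 31 (μ + 1)`, `H0 + 2 ^ 8 (E 0) H0 ≤ 2 ^ 27 (μ + 1) (E 0)`) gives `WinAb (256 (μ + 1)) K d`. The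
remaining multiplicities which are not `0` form `w'`; `CorankA` or `CorankA2`
(`2 condM K = ∑ w (w + 1)`, `2 |HX 0 0 0 d| = (d + 1) (d + 2)` by `p_card`). -/
def S_ExpA : Prop := WinC → CorankA → CorankA2 → ExpA

/-- CH31. Two curves: degree `e` for `h` steps, then lines. Proof: `E k = e` for `k < h` and `1` for
`k ≥ h`, `m = A.sup w`. `∑ j < m, E j = e (min m h) + (m - h)`, and if `m > h` some `i ∈ A` has `w i = m`. The
condition at `k = 0`: if `h = 0` it is the one for lines (the third hypothesis, with `h = 0`), otherwise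
the fourth one; at `k = h` (if `0 < h < m` and `e > 1`) it is the third one; there are no other `k`. -/
def Two : Prop := ∀ {n d e h μ s : ℕ} {w : Fin n → ℕ} {p : Fin n} {A : Finset (Fin n)},
  p ∉ A → 1 ≤ e → 1 ≤ μ → (∀ i, i ≠ p → i ∉ A → w i ≤ μ) →
  ((univ \ insert p A).image w).card ≤ s →
  w p + e * h + 2 ^ 27 * (μ + 1) * e ≤ d →
  (∀ i ∈ A, w p + e * h + (w i - h) + 2 ^ 27 * (μ + 1) * e ≤ d) →
  e * h + ∑ i ∈ A, (w i - h) + 2 ^ 31 * (μ + 1) *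
    (e + (A.filter fun i => h < w i ∧ w i ≤ h + 2 ^ 26 * (μ + 1)).card) ≤ d →
  ∑ i ∈ A, w i + 2 ^ 31 * (μ + 1) * e ^ 2 *
    (1 + (A.filter fun i => 0 < w i ∧ w i ≤ 2 ^ 26 * (μ + 1)).card) ≤ e * d →
  (2 ^ 28 * s * μ ^ 2 ≤ ∑ i ∈ univ \ insert p A, w i ^ 2 ∨
    ∑ i ∈ insert p A, w i * (w i + 1) + 2 ^ 30 * (s + 1) * μ ^ 2 ≤ (d + 1) * (d + 2)) →
  ChainAt d w

/-- CH31. -/
def S_Two : Prop := Two

/-- CH32. Nef classes. -/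
def NefA : Prop := ∀ {n s : ℕ} {P : Fin n → Fin 2 → ℂ},
  AlgebraicIndependent ℚ (fun ij : Fin n × Fin 2 => P ij.1 ij.2) →
  ∀ (c m h : ℝ) (x : Fin n → ℝ) (p : Fin n) (A : Finset (Fin n)) (e : ℕ), 0 < m → 0 ≤ h →
  1 ≤ e → 1 ≤ s → p ∉ A → (∀ i, 0 ≤ x i) → (∀ i, i ≠ p → i ∉ A → x i ≤ m) →
  ((univ \ insert p A).image x).card ≤ s →
  x p + e * h + 2 ^ 30 * e * m ≤ c →
  (∀ i ∈ A, x p + e * h + (x i - h) + 2 ^ 30 * e * m ≤ c) →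
  e * h + ∑ i ∈ A, max (x i - h) 0 +
    2 ^ 33 * m * (e + (A.filter fun i => h < x i ∧ x i ≤ h + 2 ^ 28 * m).card) ≤ c →
  ∑ i ∈ A, x i + 2 ^ 33 * m * (e : ℝ) ^ 2 *
    (1 + (A.filter fun i => 0 < x i ∧ x i ≤ 2 ^ 28 * m).card) ≤ e * c →
  2 ^ 29 * s * m ^ 2 ≤ ∑ i ∈ univ \ insert p A, x i ^ 2 → ∑ i, x i ^ 2 ≤ c ^ 2 →
  ∀ (G : MvPolynomial (Fin 3) ℂ) (e' : ℕ) (u : Fin n → ℕ), G ≠ 0 → G.IsHomogeneous e' →
    (∀ i, Van (Pool.Agent.W609.CR.aff (P i)) (u i) G) → ∑ i, x i * (u i : ℝ) ≤ c * e'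

/-- CH32. Proof (compare PK18, S_NefK in H200P/Stm3.lean, and `S_NefWide` in H200W/Stm5.lean). For a natural
number `N` put `v i = ⌊N x i⌋₊`, `d = ⌈N c⌉₊`, `μ = ⌈N m⌉₊`, `η = ⌊N h⌋₊`. For all large `N` and all `k ≥ 1`,
CH31 applies to `(k d; k v)` with the same `p`, `A`, `e`, `s`, and `k μ`, `k η`; so `GenExp (k d) (k v)` (for
`k = 0` this is trivial or not needed). Indeed `k μ + 1 ≤ 2 k N m` if `N m ≥ 4`;
`k v i - k η ≤ k (N (x i - h) + 1)` if `x i ≥ h`, and `v i ≤ η` if `x i ≤ h`;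
`k η < k v i` implies `h < x i`, and `k v i ≤ k η + 2 ^ 26 (k μ + 1)` implies
`x i ≤ h + 2 ^ 27 m + 1 / N ≤ h + 2 ^ 28 m`; `0 < k v i` implies `0 < x i`. So the left hand sides are at most
`k N` times those of the hypotheses with `2 ^ 30`, `2 ^ 33` replaced by `2 ^ 28`, `2 ^ 32`, plus
`k (n + 2)`, and for large `N` this is at most `k N c ≤ k d` (resp. `e k N c ≤ e k d`). For
`i ∉ A`, `i ≠ p`: `v i ≤ μ`; equal `x i` have equal `v i`; `∑ (k v i) ^ 2 ≥ k ^ 2 (∑ (N x i) ^ 2 - 2 N ∑ x i)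
≥ 2 ^ 28 s (k μ) ^ 2` for large `N` as `μ ≤ N m + 1` and `s ≥ 1`. `∑ v i ^ 2 ≤ N ^ 2 ∑ x i ^ 2 ≤ (N c) ^ 2 ≤ d ^ 2`.
`S_NefExp` gives `∑ v i u i ≤ d e'`; divide by `N → ∞`. -/
def S_NefA : Prop := ExpA → Two → S_NefExp → NefA

end Pool.Agent.H200C
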